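import Pool.Agent.Lib.MP_ca0fc2_an.Mg.G113

/-! Campaign OV, row Z1: pairs of holomorphic functions of one variable with common zeros. -/

set_option autoImplicit false

open Metric Set MeasureTheory Filter Topology

namespace Pool.Agent.MPca0fc2.OV

/-- the common zeros at a point are divided out -/
theorem factor_point {X Y : ℂ → ℂ} {t₀ : ℂ} (hX : AnalyticAt ℂ X t₀) (hY : AnalyticAt ℂ Y t₀)
    (hY0 : analyticOrderAt Y t₀ ≠ ⊤) :
    ∃ (n : ℕ) (x y : ℂ → ℂ), AnalyticAt ℂ x t₀ ∧ AnalyticAt ℂ y t₀ ∧ (x t₀ ≠ 0 ∨ y t₀ ≠ 0) ∧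
      ∀ᶠ t in 𝓝 t₀, X t = (t - t₀) ^ n * x t ∧ Y t = (t - t₀) ^ n * y t := by
  obtain ⟨m, hm⟩ := ENat.ne_top_iff_exists.1 hY0
  obtain ⟨y₀, hy₀, hy₀0, hy₀e⟩ := (hY.analyticOrderAt_eq_natCast).1 hm.symm
  by_cases h : (m : ℕ∞) ≤ analyticOrderAt X t₀
  · obtain ⟨x, hx, hxe⟩ := (natCast_le_analyticOrderAt hX).1 h
    exact ⟨m, x, y₀, hx, hy₀, Or.inr hy₀0, by
      filter_upwards [hxe, hy₀e] with t h1 h2
      exact ⟨h1, h2⟩⟩
  · push Not at h
    obtain ⟨k, hk⟩ := ENat.ne_top_iff_exists.1 (ne_top_of_lt h)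
    obtain ⟨x₀, hx₀, hx₀0, hx₀e⟩ := (hX.analyticOrderAt_eq_natCast).1 hk.symm
    rw [← hk] at h
    have hkm : k < m := by exact_mod_cast h
    refine ⟨k, x₀, fun t => (t - t₀) ^ (m - k) * y₀ t, hx₀, by fun_prop, Or.inl hx₀0, ?_⟩
    filter_upwards [hx₀e, hy₀e] with t h1 h2
    refine ⟨h1, ?_⟩
    rw [h2, smul_eq_mul, ← mul_assoc, ← pow_add]
    congr 2
    omega

/-- `X - a Y` is dominated by `X - b Y` near `t` -/
def Dom (X Y : ℂ → ℂ) (a b t : ℂ) : Prop :=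
  ∃ C : ℝ, ∀ᶠ s in 𝓝 t, ‖X s - a * Y s‖ ≤ C * ‖X s - b * Y s‖

/-- where `X - b Y` has no zero there is domination -/
theorem dom_of_ne {X Y : ℂ → ℂ} {a b t : ℂ} (hX : ContinuousAt X t) (hY : ContinuousAt Y t)
    (h : X t - b * Y t ≠ 0) : Dom X Y a b t := by
  have h1 : ContinuousAt (fun s => ‖X s - a * Y s‖ / ‖X s - b * Y s‖) t := by
    refine ContinuousAt.div (by fun_prop) (by fun_prop) (norm_ne_zero_iff.2 h)
  have h2 : ∀ᶠ s in 𝓝 t, X s - b * Y s ≠ 0 :=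
    (show ContinuousAt (fun s => X s - b * Y s) t by fun_prop).eventually_ne h
  refine ⟨‖X t - a * Y t‖ / ‖X t - b * Y t‖ + 1, ?_⟩
  filter_upwards [h1.eventually (gt_mem_nhds (lt_add_one _)), h2] with s h3 h4
  have h5 : 0 < ‖X s - b * Y s‖ := norm_pos_iff.2 h4
  exact ((div_lt_iff₀ h5).1 h3).le

/-- for all but finitely many values `b` in `B` there is domination near all points of a compact set -/
theorem finite_bad {X Y : ℂ → ℂ} {K B : Set ℂ} (hK : IsCompact K) (hX : ∀ t ∈ K, AnalyticAt ℂ X t)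
    (hY : ∀ t ∈ K, AnalyticAt ℂ Y t) (hY0 : ∀ t ∈ K, analyticOrderAt Y t ≠ ⊤)
    (hB : ∀ b ∈ B, ∀ t ∈ K, Y t ≠ 0 → X t - b * Y t ≠ 0) (a : ℂ) :
    {b | b ∈ B ∧ ∃ t ∈ K, ¬ Dom X Y a b t}.Finite := by
  have key : ∀ S ⊆ K, (∃ G : Set ℂ, G.Finite ∧ ∀ b ∈ B, ∀ t ∈ S, ¬ Dom X Y a b t → b ∈ G) → 
      {b | b ∈ B ∧ ∃ t ∈ S, ¬ Dom X Y a b t}.Finite := by
    rintro S hS ⟨G, hG, h⟩
    exact hG.subset fun b ⟨hb, t, ht, hd⟩ => h b hb t ht hd
  refine key K subset_rfl ?_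
  have : ∃ G : Set ℂ, G.Finite ∧ ∀ b ∈ B, ∀ t ∈ K, t ∈ K → ¬ Dom X Y a b t → b ∈ G := by
    refine hK.induction_on (p := fun S => ∃ G : Set ℂ, G.Finite ∧ ∀ b ∈ B, ∀ t ∈ S, t ∈ K →
      ¬ Dom X Y a b t → b ∈ G) ?_ ?_ ?_ ?_
    · exact ⟨∅, finite_empty, fun b _ t ht => absurd ht (notMem_empty t)⟩
    · rintro S T hST ⟨G, hG, h⟩
      exact ⟨G, hG, fun b hb t ht => h b hb t (hST ht)⟩
    · rintro S T ⟨F, hF, h⟩ ⟨G, hG, h'⟩
      refine ⟨F ∪ G, hF.union hG, fun b hb t ht htK hd => ?_⟩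
      rcases ht with ht | ht
      · exact Or.inl (h b hb t ht htK hd)
      · exact Or.inr (h' b hb t ht htK hd)
    · intro t₀ ht₀
      obtain ⟨n, x, y, hx, hy, hxy, he⟩ := factor_point (hX t₀ ht₀) (hY t₀ ht₀) (hY0 t₀ ht₀)
      have hne : ∀ᶠ t in 𝓝[≠] t₀, Y t ≠ 0 := by
        rcases (hY t₀ ht₀).eventually_eq_zero_or_eventually_ne_zero with h | h
        · exact absurd (analyticOrderAt_eq_top.2 h) (hY0 t₀ ht₀)
        · exact h
      have hne' : ∀ᶠ t in 𝓝 t₀, t ≠ t₀ → Y t ≠ 0 := by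
        rwa [eventually_nhdsWithin_iff] at hne
      refine ⟨{t | t ≠ t₀ → Y t ≠ 0}, mem_nhdsWithin_of_mem_nhds hne', {x t₀ / y t₀},
        finite_singleton _, fun b hb t ht htK hd => ?_⟩
      by_cases htt : t = t₀
      · subst htt
        by_contra hcon
        refine hd ?_
        have h1 : x t - b * y t ≠ 0 := by
          intro h2
          by_cases hy0 : y t = 0
          · rw [hy0, mul_zero, sub_zero] at h2
            rcases hxy with h3 | h3
            · exact h3 h2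
            · exact h3 hy0
          · refine hcon ?_
            rw [mem_singleton_iff, eq_div_iff hy0]
            exact (sub_eq_zero.1 h2).symm
        obtain ⟨C, hC⟩ := dom_of_ne (a := a) hx.continuousAt hy.continuousAt h1
        refine ⟨C, ?_⟩
        filter_upwards [hC, he] with s h2 h3
        rw [h3.1, h3.2]
        have h4 : (s - t) ^ n * x s - a * ((s - t) ^ n * y s) = (s - t) ^ n * (x s - a * y s) := by
          ring
        have h5 : (s - t) ^ n * x s - b * ((s - t) ^ n * y s) = (s - t) ^ n * (x s - b * y s) := by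
          ring
        rw [h4, h5, norm_mul, norm_mul]
        have := mul_le_mul_of_nonneg_left h2 (norm_nonneg ((s - t) ^ n))
        linarith
      · exact absurd (dom_of_ne (hX t htK).continuousAt (hY t htK).continuousAt
          (hB b hb t htK (ht htt))) hd
  obtain ⟨G, hG, h⟩ := this
  exact ⟨G, hG, fun b hb t ht hd => h b hb t ht ht hd⟩

/-- the bound on the circle carries over to the disc -/
theorem slice_bound {X Y : ℂ → ℂ} {a : ℂ} {B : Set ℂ} {r R M : ℝ} (hr : 0 < r) (hrR : r < R) (hM : 0 < M)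
    (hX : DifferentiableOn ℂ X (ball 0 R)) (hY : DifferentiableOn ℂ Y (ball 0 R))
    (hB : ∀ b ∈ B, ∀ t ∈ ball (0 : ℂ) R, Y t ≠ 0 → X t - b * Y t ≠ 0)
    (hBa : ∀ ε > 0, {b | b ∈ B ∧ 0 < ‖b - a‖ ∧ ‖b - a‖ < ε}.Infinite)
    (hc : ∀ t ∈ sphere (0 : ℂ) r, Y t ≠ 0 ∧ ‖Y t‖ ≤ M * ‖X t - a * Y t‖) :
    ∀ t ∈ ball (0 : ℂ) r, ‖Y t‖ ≤ 2 * M * ‖X t - a * Y t‖ := by
  obtain ⟨R', hrR', hR'⟩ := exists_between hrR
  have hXa : AnalyticOnNhd ℂ X (ball 0 R) := hX.analyticOnNhd isOpen_ball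
  have hYa : AnalyticOnNhd ℂ Y (ball 0 R) := hY.analyticOnNhd isOpen_ball
  have hpt : (r : ℂ) ∈ sphere (0 : ℂ) r := by simp [abs_of_pos hr]
  have hrb : ∀ s : ℝ, s < R → closedBall (0 : ℂ) s ⊆ ball 0 R := fun s hs => closedBall_subset_ball hs
  have hord : ∀ t ∈ ball (0 : ℂ) R, analyticOrderAt Y t ≠ ⊤ := by
    intro t ht h
    have h1 : EqOn Y 0 (ball 0 R) := hYa.eqOn_zero_of_preconnected_of_eventuallyEq_zero
      (convex_ball (0 : ℂ) R).isPreconnected ht (analyticOrderAt_eq_top.1 h)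
    exact (hc _ hpt).1 (h1 (hrb r hrR (sphere_subset_closedBall hpt)))
  have hfin := finite_bad (K := closedBall (0 : ℂ) R') (B := B) (isCompact_closedBall _ _)
    (fun t ht => hXa t (hrb R' hR' ht)) (fun t ht => hYa t (hrb R' hR' ht))
    (fun t ht => hord t (hrb R' hR' ht)) (fun b hb t ht => hB b hb t (hrb R' hR' ht)) a
  obtain ⟨b, ⟨hbB, hb0, hb1⟩, hbad⟩ := ((hBa (1 / (4 * M)) (by positivity)).sdiff hfin).nonempty
  have hdom : ∀ t ∈ closedBall (0 : ℂ) R', Dom X Y a b t := by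
    intro t ht
    by_contra h
    exact hbad ⟨hbB, t, ht, h⟩
  set T : ℝ := ‖b - a‖ * M with hT
  have hT0 : 0 < T := by positivity
  have hT1 : T < 1 / 4 := by
    have h1 : ‖b - a‖ * M < 1 / (4 * M) * M := mul_lt_mul_of_pos_right hb1 hM
    have h2 : 1 / (4 * M) * M = 1 / 4 := by field_simp
    rw [h2] at h1
    exact h1
  -- the quotient extends
  have hsub : ball (0 : ℂ) R' ⊆ ball 0 R := ball_subset_ball hR'.le
  obtain ⟨ψ, hψ, hψe⟩ := riemann_ext (W := ball (0 : ℂ) R') isOpen_ball (h := Y) (hY.mono hsub)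
    (fun t ht => by
      have h1 : ∀ᶠ s in 𝓝[≠] t, Y s ≠ 0 := by
        rcases (hYa t (hsub ht)).eventually_eq_zero_or_eventually_ne_zero with h | h
        · exact absurd (analyticOrderAt_eq_top.2 h) (hord t (hsub ht))
        · exact h
      rw [mem_closure_iff_frequently]
      have h2 : ∀ᶠ s in 𝓝[≠] t, s ∈ ball (0 : ℂ) R' ∧ Y s ≠ 0 := by
        filter_upwards [h1, mem_nhdsWithin_of_mem_nhds (isOpen_ball.mem_nhds ht)] with s h2 h3
        exact ⟨h3, h2⟩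
      exact h2.frequently.filter_mono nhdsWithin_le_nhds)
    (φ := fun s => (X s - a * Y s) / (X s - b * Y s)) (by
      intro s hs
      have h1 := (hX s (hsub hs.1)).differentiableAt (isOpen_ball.mem_nhds (hsub hs.1))
      have h2 := (hY s (hsub hs.1)).differentiableAt (isOpen_ball.mem_nhds (hsub hs.1))
      exact ((h1.sub (h2.const_mul a)).div (h1.sub (h2.const_mul b))
        (hB b hbB s (hsub hs.1) hs.2)).differentiableWithinAt)
    (fun t ht => by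
      obtain ⟨C, hC⟩ := hdom t (ball_subset_closedBall ht)
      obtain ⟨ρ, hρ, hρ'⟩ := Metric.eventually_nhds_iff_ball.1 hC
      refine ⟨ρ, hρ, C, fun s hs hs' hs0 => ?_⟩
      rw [norm_div, div_le_iff₀ (norm_pos_iff.2 (hB b hbB s (hsub hs) hs0))]
      exact hρ' s hs')
  -- on the circle
  have hcirc : ∀ t ∈ sphere (0 : ℂ) r, ‖ψ t - 1‖ ≤ T / (1 - T) := by
    intro t ht
    have htR : t ∈ ball (0 : ℂ) R' := by
      rw [mem_ball, mem_sphere.1 ht]
      exact hrR'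
    obtain ⟨h1, h2⟩ := hc t ht
    rw [hψe t htR h1]
    have h3 : X t - b * Y t ≠ 0 := hB b hbB t (hsub htR) h1
    have h4 : (X t - a * Y t) / (X t - b * Y t) - 1 = (b - a) * Y t / (X t - b * Y t) := by
      rw [div_sub_one h3]
      congr 1
      ring
    rw [h4, norm_div, norm_mul, div_le_div_iff₀ (norm_pos_iff.2 h3) (by linarith)]
    have h5 : ‖X t - a * Y t‖ ≤ ‖X t - b * Y t‖ + ‖b - a‖ * ‖Y t‖ := by
      have h6 : X t - a * Y t = (X t - b * Y t) + (b - a) * Y t := by ring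
      rw [h6]
      exact (norm_add_le _ _).trans (by rw [norm_mul])
    have h6 : ‖b - a‖ * ‖Y t‖ ≤ T * ‖X t - a * Y t‖ := by
      rw [hT, mul_assoc]
      exact mul_le_mul_of_nonneg_left h2 (norm_nonneg _)
    nlinarith [norm_nonneg (X t - b * Y t), norm_nonneg (X t - a * Y t)]
  -- in the disc
  have hdisc : ∀ t ∈ ball (0 : ℂ) r, ‖ψ t - 1‖ ≤ T / (1 - T) := by
    intro t ht
    have hd : DiffContOnCl ℂ (fun s => ψ s - 1) (ball 0 r) := by
      refine DifferentiableOn.diffContOnCl ?_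
      rw [closure_ball _ hr.ne']
      exact (hψ.mono (closedBall_subset_ball hrR')).sub_const 1
    refine Complex.norm_le_of_forall_mem_frontier_norm_le isBounded_ball hd (fun s hs => ?_)
      (subset_closure ht)
    rw [frontier_ball _ hr.ne'] at hs
    exact hcirc s hs
  intro t ht
  by_cases hYt : Y t = 0
  · rw [hYt, norm_zero]
    positivity
  have htR : t ∈ ball (0 : ℂ) R' := ball_subset_ball hrR'.le ht
  have h1 := hdisc t ht
  rw [hψe t htR hYt] at h1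
  have h3 : X t - b * Y t ≠ 0 := hB b hbB t (hsub htR) hYt
  have h4 : (X t - a * Y t) / (X t - b * Y t) - 1 = (b - a) * Y t / (X t - b * Y t) := by
    rw [div_sub_one h3]
    congr 1
    ring
  have hpos := norm_pos_iff.2 h3
  rw [h4, norm_div, norm_mul, div_le_div_iff₀ hpos (by linarith)] at h1
  have h5 : ‖X t - b * Y t‖ ≤ ‖X t - a * Y t‖ + ‖b - a‖ * ‖Y t‖ := by
    have h6 : X t - b * Y t = (X t - a * Y t) - (b - a) * Y t := by ring
    rw [h6]
    exact (norm_sub_le _ _).trans (by rw [norm_mul])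
  -- `|b - a| |Y| (1 - T) ≤ T |X - b Y| ≤ T |X - a Y| + T |b - a| |Y|`
  have h6 : ‖b - a‖ * ‖Y t‖ * (1 - 2 * T) ≤ T * ‖X t - a * Y t‖ := by nlinarith
  have h7 : ‖b - a‖ * ‖Y t‖ * (1 / 2) ≤ T * ‖X t - a * Y t‖ := by
    refine le_trans (mul_le_mul_of_nonneg_left (by linarith) (by positivity)) h6
  have h8 : ‖b - a‖ * ‖Y t‖ ≤ ‖b - a‖ * (2 * M * ‖X t - a * Y t‖) := by
    rw [hT] at h7
    nlinarith
  exact le_of_mul_le_mul_left h8 hb0

end Pool.Agent.MPca0fc2.OV
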