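import Pool.Agent.Lib.MP_ca0fc2_an.OV.E
import Pool.Agent.Lib.MP_ca0fc2_an.Mg.G114
import Pool.Agent.Lib.MP_ca0fc2_an.OV.Z1

/-! Campaign OV, row Z2: pairs with common zeros, quotients which omit a perfect set of positive capacity. -/

set_option autoImplicit false

open Metric Set MeasureTheory Filter Topology

namespace Pool.Agent.MPca0fc2.OV

/-- the zero set of a holomorphic function on a convex set is thin or everything -/
theorem dense_of_convex {E : Type*} [NormedAddCommGroup E] [NormedSpace ℂ E] {V : Set E}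
    (hV : IsOpen V) (hc : Convex ℝ V) {Y : E → ℂ} (hY : DifferentiableOn ℂ Y V) {z₁ : E} (hz₁ : z₁ ∈ V)
    (h1 : Y z₁ ≠ 0) {z : E} (hz : z ∈ V) : z ∈ closure {w | w ∈ V ∧ Y w ≠ 0} := by
  obtain ⟨l, hl⟩ : ∃ l : ℂ → E, l = fun t => z + t • (z₁ - z) := ⟨_, rfl⟩
  have hld : Differentiable ℂ l := by
    rw [hl]
    exact (differentiable_id.smul_const _).const_add z
  have hl0 : l 0 = z := by simp [hl]
  have hl1 : l 1 = z₁ := by simp [hl]
  have hT : IsOpen (l ⁻¹' V) := hV.preimage hld.continuous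
  have hTc : Convex ℝ (l ⁻¹' V) := by
    intro s hs t ht p q hp hq hpq
    have h2 : l (p • s + q • t) = p • l s + q • l t := by
      simp only [hl, smul_add, Complex.real_smul, add_smul, mul_smul, Complex.coe_smul]
      have h3 : z = p • z + q • z := by rw [← add_smul, hpq, one_smul]
      nth_rw 1 [h3]
      abel
    show l (p • s + q • t) ∈ V
    rw [h2]
    exact hc hs ht hp hq hpq
  have hYl : AnalyticOnNhd ℂ (fun t => Y (l t)) (l ⁻¹' V) :=
    (hY.comp hld.differentiableOn fun t ht => ht).analyticOnNhd hT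
  have h0 : (0 : ℂ) ∈ l ⁻¹' V := by
    show l 0 ∈ V
    rw [hl0]
    exact hz
  have h2 : ∀ᶠ t in 𝓝[≠] (0 : ℂ), Y (l t) ≠ 0 := by
    rcases (hYl 0 h0).eventually_eq_zero_or_eventually_ne_zero with h | h
    · refine absurd ?_ h1
      have h3 := hYl.eqOn_zero_of_preconnected_of_eventuallyEq_zero hTc.isPreconnected h0 h
        (show (1 : ℂ) ∈ l ⁻¹' V by show l 1 ∈ V; rw [hl1]; exact hz₁)
      simpa [hl1] using h3
    · exact h
  rw [mem_closure_iff_frequently]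
  have h3 : Tendsto l (𝓝[≠] (0 : ℂ)) (𝓝 z) := by
    have h4 := hld.continuous.tendsto 0
    rw [hl0] at h4
    exact h4.mono_left nhdsWithin_le_nhds
  refine h3.frequently (p := fun w => w ∈ V ∧ Y w ≠ 0) ?_
  have h4 : ∀ᶠ t in 𝓝[≠] (0 : ℂ), l t ∈ V ∧ Y (l t) ≠ 0 := by
    filter_upwards [h2, mem_nhdsWithin_of_mem_nhds (hT.mem_nhds h0)] with t h5 h6
    exact ⟨h6, h5⟩
  exact h4.frequently

/-- the local bound -/
theorem local_bound {E : Type*} [NormedAddCommGroup E] [NormedSpace ℂ E] {V : Set E}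
    (hV : IsOpen V) {X Y : E → ℂ} (hX : DifferentiableOn ℂ X V) (hY : DifferentiableOn ℂ Y V)
    {B : Set ℂ} (hB : ∀ b ∈ B, ∀ z ∈ V, Y z ≠ 0 → X z - b * Y z ≠ 0) {a : ℂ} (ha : a ∈ B)
    (hinf : ∀ ε > 0, {b | b ∈ B ∧ ‖b - a‖ < ε}.Infinite) {z₀ : E} (hz₀ : z₀ ∈ V)
    (hcl : z₀ ∈ closure {w | w ∈ V ∧ Y w ≠ 0}) :
    ∃ ρ > 0, ∃ M : ℝ, 0 < M ∧ ∀ z ∈ ball z₀ ρ, z ∈ V → ‖Y z‖ ≤ M * ‖X z - a * Y z‖ := by
  obtain ⟨ρ₀, hρ₀, hball⟩ := Metric.isOpen_iff.1 hV z₀ hz₀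
  obtain ⟨z₁, ⟨hz₁V, hz₁⟩, hz₁d⟩ := Metric.mem_closure_iff.1 hcl (ρ₀ / 2) (by positivity)
  set v : E := z₁ - z₀ with hv
  have hvn : ‖v‖ < ρ₀ / 2 := by
    rw [hv, ← dist_eq_norm, dist_comm]
    exact hz₁d
  have hmem : ∀ z ∈ ball z₀ (ρ₀ / 2), ∀ t ∈ ball (0 : ℂ) 1, z + t • v ∈ V := by
    intro z hz t ht
    refine hball ?_
    rw [mem_ball, dist_eq_norm] at hz ⊢
    rw [mem_ball_zero_iff] at ht
    have h1 : z + t • v - z₀ = (z - z₀) + t • v := by abel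
    rw [h1]
    have h2 := norm_add_le (z - z₀) (t • v)
    rw [norm_smul] at h2
    nlinarith [norm_nonneg v]
  have hmem2 : ∀ t ∈ ball (0 : ℂ) 2, z₀ + t • v ∈ V := by
    intro t ht
    refine hball ?_
    rw [mem_ball, dist_eq_norm, add_sub_cancel_left, norm_smul]
    rw [mem_ball_zero_iff] at ht
    nlinarith [norm_nonneg v, norm_nonneg t]
  have hld : ∀ z : E, Differentiable ℂ (fun t : ℂ => z + t • v) := fun z =>
    (differentiable_id.smul_const _).const_add z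
  -- the circle
  have hY0 : AnalyticOnNhd ℂ (fun t : ℂ => Y (z₀ + t • v)) (ball 0 2) :=
    (hY.comp (hld z₀).differentiableOn fun t ht => hmem2 t ht).analyticOnNhd isOpen_ball
  have h2 : ∀ᶠ t in 𝓝[≠] (0 : ℂ), Y (z₀ + t • v) ≠ 0 := by
    rcases (hY0 0 (by simp)).eventually_eq_zero_or_eventually_ne_zero with h | h
    · refine absurd ?_ hz₁
      have h3 := hY0.eqOn_zero_of_preconnected_of_eventuallyEq_zero
        (convex_ball (0 : ℂ) 2).isPreconnected (by simp) h (show (1 : ℂ) ∈ ball (0 : ℂ) 2 by simp)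
      have h4 : z₀ + (1 : ℂ) • v = z₁ := by rw [one_smul, hv]; abel
      have h5 : Y (z₀ + (1 : ℂ) • v) = 0 := h3
      rwa [h4] at h5
    · exact h
  obtain ⟨r₀, hr₀, hr₀'⟩ := Metric.eventually_nhds_iff_ball.1 (eventually_nhdsWithin_iff.1 h2)
  set r : ℝ := min r₀ 1 / 2 with hr
  have hr0 : 0 < r := by positivity
  have hr1 : r < 1 := by
    have := min_le_right r₀ 1
    rw [hr]
    linarith
  have hrr : r < r₀ := by
    have := min_le_left r₀ 1
    have h3 : 0 < min r₀ 1 := by positivity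
    rw [hr]
    linarith
  have hS : ∀ t ∈ sphere (0 : ℂ) r, Y (z₀ + t • v) ≠ 0 := by
    intro t ht
    have h3 : ‖t‖ = r := by simpa using ht
    refine hr₀' t (by rw [mem_ball_zero_iff, h3]; exact hrr) ?_
    rintro rfl
    rw [norm_zero] at h3
    linarith
  have hSV : ∀ t ∈ sphere (0 : ℂ) r, z₀ + t • v ∈ V := fun t ht =>
    hmem z₀ (mem_ball_self (by positivity)) t (by
      have h3 : ‖t‖ = r := by simpa using ht
      rw [mem_ball_zero_iff, h3]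
      exact hr1)
  have hSa : ∀ t ∈ sphere (0 : ℂ) r, X (z₀ + t • v) - a * Y (z₀ + t • v) ≠ 0 := fun t ht =>
    hB a ha _ (hSV t ht) (hS t ht)
  have hXc : ContinuousOn (fun t : ℂ => X (z₀ + t • v)) (sphere 0 r) :=
    hX.continuousOn.comp (hld z₀).continuous.continuousOn hSV
  have hYc : ContinuousOn (fun t : ℂ => Y (z₀ + t • v)) (sphere 0 r) :=
    hY.continuousOn.comp (hld z₀).continuous.continuousOn hSV
  obtain ⟨M₀, hM₀⟩ := (isCompact_sphere (0 : ℂ) r).exists_bound_of_continuousOn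
    (f := fun t : ℂ => Y (z₀ + t • v) / (X (z₀ + t • v) - a * Y (z₀ + t • v)))
    (hYc.div (hXc.sub (continuousOn_const.mul hYc)) hSa)
  set M : ℝ := |M₀| + 1 with hMdef
  have hM : 0 < M := by positivity
  have hev : ∀ᶠ z in 𝓝 z₀, ∀ t ∈ sphere (0 : ℂ) r, Y (z + t • v) ≠ 0 ∧
      ‖Y (z + t • v)‖ < M * ‖X (z + t • v) - a * Y (z + t • v)‖ := by
    refine (isCompact_sphere (0 : ℂ) r).eventually_forall_of_forall_eventually fun t ht => ?_
    have h3 : ContinuousAt (fun q : E × ℂ => q.1 + q.2 • v) (z₀, t) := by fun_prop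
    have h4 : ContinuousAt (fun q : E × ℂ => X (q.1 + q.2 • v)) (z₀, t) :=
      ContinuousAt.comp (f := fun q : E × ℂ => q.1 + q.2 • v)
        (hX.continuousOn.continuousAt (hV.mem_nhds (hSV t ht))) h3
    have h5 : ContinuousAt (fun q : E × ℂ => Y (q.1 + q.2 • v)) (z₀, t) :=
      ContinuousAt.comp (f := fun q : E × ℂ => q.1 + q.2 • v)
        (hY.continuousOn.continuousAt (hV.mem_nhds (hSV t ht))) h3
    have h6 := h5.eventually_ne (hS t ht)
    have h7 : ‖Y (z₀ + t • v)‖ < M * ‖X (z₀ + t • v) - a * Y (z₀ + t • v)‖ := by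
      have h8 := hM₀ t ht
      have h9 : 0 < ‖X (z₀ + t • v) - a * Y (z₀ + t • v)‖ := norm_pos_iff.2 (hSa t ht)
      rw [norm_div, div_le_iff₀ h9] at h8
      refine h8.trans_lt (mul_lt_mul_of_pos_right ?_ h9)
      rw [hMdef]
      linarith [le_abs_self M₀]
    have h8 : ContinuousAt (fun q : E × ℂ => ‖Y (q.1 + q.2 • v)‖) (z₀, t) := h5.norm
    have h9 : ContinuousAt (fun q : E × ℂ => M * ‖X (q.1 + q.2 • v) - a * Y (q.1 + q.2 • v)‖) (z₀, t) :=
      continuousAt_const.mul (h4.sub (continuousAt_const.mul h5)).norm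
    filter_upwards [h6, h8.eventually_lt h9 h7] with q h10 h11
    exact ⟨h10, h11⟩
  obtain ⟨ρ, hρ, hρ'⟩ := Metric.eventually_nhds_iff_ball.1 hev
  refine ⟨min ρ (ρ₀ / 2), by positivity, 2 * M, by positivity, fun z hz _ => ?_⟩
  have hz1 : z ∈ ball z₀ ρ := ball_subset_ball (min_le_left _ _) hz
  have hz2 : z ∈ ball z₀ (ρ₀ / 2) := ball_subset_ball (min_le_right _ _) hz
  have hinf' : ∀ ε > 0, {b | b ∈ B ∧ 0 < ‖b - a‖ ∧ ‖b - a‖ < ε}.Infinite := by
    intro ε hε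
    refine ((hinf ε hε).sdiff (finite_singleton a)).mono ?_
    rintro b ⟨⟨h3, h4⟩, h5⟩
    exact ⟨h3, norm_pos_iff.2 (sub_ne_zero.2 h5), h4⟩
  have hfin := slice_bound (X := fun t => X (z + t • v)) (Y := fun t => Y (z + t • v)) (a := a) (B := B)
    hr0 hr1 hM (hX.comp (hld z).differentiableOn fun t ht => hmem z hz2 t ht)
    (hY.comp (hld z).differentiableOn fun t ht => hmem z hz2 t ht)
    (fun b hb t ht => hB b hb _ (hmem z hz2 t ht)) hinf'
    (fun t ht => ⟨(hρ' z hz1 t ht).1, (hρ' z hz1 t ht).2.le⟩) 0 (mem_ball_self hr0)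
  simpa using hfin

/-- the common divisor is `X - a Y` -/
theorem exists_factor {E : Type*} [NormedAddCommGroup E] [NormedSpace ℂ E] [FiniteDimensional ℂ E]
    {V : Set E} (hV : IsOpen V) {X Y : E → ℂ} (hX : DifferentiableOn ℂ X V)
    (hY : DifferentiableOn ℂ Y V) {B : Set ℂ} (hB : ∀ b ∈ B, ∀ z ∈ V, Y z ≠ 0 → X z - b * Y z ≠ 0)
    (hinf : ∀ a ∈ B, ∀ ε > 0, {b | b ∈ B ∧ ‖b - a‖ < ε}.Infinite)
    (hcl : ∀ z ∈ V, z ∈ closure {w | w ∈ V ∧ Y w ≠ 0}) {a : ℂ} (ha : a ∈ B) :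
    ∃ ψ : E → ℂ, DifferentiableOn ℂ ψ V ∧ ∀ z ∈ V, Y z = ψ z * (X z - a * Y z) := by
  have hlb := fun z hz => local_bound hV hX hY hB ha (hinf a ha) (z₀ := z) hz (hcl z hz)
  have hsub1 : {w | w ∈ V ∧ Y w ≠ 0} ⊆ {w | w ∈ V ∧ X w - a * Y w ≠ 0} :=
    fun w hw => ⟨hw.1, hB a ha w hw.1 hw.2⟩
  have hsub2 : {w | w ∈ V ∧ X w - a * Y w ≠ 0} ⊆ V := fun w hw => hw.1
  have hdiv : DifferentiableOn ℂ (fun z => Y z / (X z - a * Y z)) {w | w ∈ V ∧ X w - a * Y w ≠ 0} := by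
    have h1 : DifferentiableOn ℂ (fun z => (X z - a * Y z)⁻¹) {w | w ∈ V ∧ X w - a * Y w ≠ 0} :=
      DifferentiableOn.inv ((hX.sub (hY.const_mul a)).mono hsub2) fun w hw => hw.2
    simp only [div_eq_mul_inv]
    exact (hY.mono hsub2).mul h1
  obtain ⟨ψ, hψ, hψe⟩ := riemann_ext hV (h := fun z => X z - a * Y z) (hX.sub (hY.const_mul a))
    (fun z hz => closure_mono hsub1 (hcl z hz))
    (φ := fun z => Y z / (X z - a * Y z)) hdiv
    (fun z hz => by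
      obtain ⟨ρ, hρ, M, hM, h⟩ := hlb z hz
      refine ⟨ρ, hρ, M, fun w hw hw' hw0 => ?_⟩
      rw [norm_div, div_le_iff₀ (norm_pos_iff.2 hw0)]
      exact h w hw' hw)
  refine ⟨ψ, hψ, fun z hz => ?_⟩
  by_cases h0 : X z - a * Y z = 0
  · obtain ⟨ρ, hρ, M, hM, h⟩ := hlb z hz
    have h1 := h z (mem_ball_self hρ) hz
    rw [h0, norm_zero, mul_zero] at h1
    rw [h0, mul_zero]
    exact norm_le_zero_iff.1 h1
  · rw [hψe z hz h0, div_mul_cancel₀ _ h0]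

/-- after division by the common divisor there are no zeros -/
theorem factor_ne_zero {E : Type*} [NormedAddCommGroup E] [NormedSpace ℂ E] [FiniteDimensional ℂ E]
    {V : Set E} (hV : IsOpen V) {X Y : E → ℂ} (hX : DifferentiableOn ℂ X V)
    (hY : DifferentiableOn ℂ Y V) {B : Set ℂ} (hB : ∀ b ∈ B, ∀ z ∈ V, Y z ≠ 0 → X z - b * Y z ≠ 0)
    (hinf : ∀ a ∈ B, ∀ ε > 0, {b | b ∈ B ∧ ‖b - a‖ < ε}.Infinite)
    (hcl : ∀ z ∈ V, z ∈ closure {w | w ∈ V ∧ Y w ≠ 0}) {a : ℂ} (ha : a ∈ B) {ψ : E → ℂ}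
    (hψ : DifferentiableOn ℂ ψ V) (hψe : ∀ z ∈ V, Y z = ψ z * (X z - a * Y z)) :
    ∀ b ∈ B, ∀ z ∈ V, 1 + (a - b) * ψ z ≠ 0 := by
  intro b hb z hz
  obtain ⟨χ, hχ, hχe⟩ := exists_factor hV hX hY hB hinf hcl hb
  have h1 : EqOn (fun z => (1 + (a - b) * ψ z) * (1 + (b - a) * χ z)) (fun _ => 1) V := by
    have hc1 : ContinuousOn (fun z => (1 + (a - b) * ψ z) * (1 + (b - a) * χ z)) V :=
      (continuousOn_const.add (continuousOn_const.mul hψ.continuousOn)).mul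
        (continuousOn_const.add (continuousOn_const.mul hχ.continuousOn))
    refine EqOn.of_subset_closure (s := {w | w ∈ V ∧ Y w ≠ 0}) ?_ hc1 continuousOn_const
      (fun w hw => hw.1) hcl
    rintro w ⟨hw, hw0⟩
    have h2 := hB a ha w hw hw0
    have h3 := hB b hb w hw hw0
    have h4 := hψe w hw
    have h5 := hχe w hw
    have h6 : (1 + (a - b) * ψ w) * (X w - a * Y w) = X w - b * Y w := by
      linear_combination (b - a) * h4
    have h7 : (1 + (b - a) * χ w) * (X w - b * Y w) = X w - a * Y w := by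
      linear_combination (a - b) * h5
    have h8 : (1 + (a - b) * ψ w) * (1 + (b - a) * χ w) * (X w - b * Y w) = 1 * (X w - b * Y w) := by
      rw [mul_assoc, h7, h6, one_mul]
    exact mul_right_cancel₀ h3 h8
  intro h2
  have h3 := h1 hz
  simp only [h2, zero_mul] at h3
  exact zero_ne_one h3

/-- the homogeneous Bezout equation for the pair without the common divisor gives the cut off function -/
theorem cut_of_factor {E : Type*} [NormedAddCommGroup E] [NormedSpace ℂ E] {V : Set E}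
    {X Y x y g : E → ℂ} {C : ℝ} (hx : DifferentiableOn ℂ x V) (hX : ∀ z ∈ V, X z = g z * x z)
    (hY : ∀ z ∈ V, Y z = g z * y z) (h : Pair V x y C) : Cut V X Y C := by
  obtain ⟨u, v, hu, hv, huv, hb⟩ := h
  refine ⟨fun z => x z * u z, hx.mul hu, fun z hz => ?_⟩
  obtain ⟨h1, h2⟩ := hb z hz
  have h3 : 1 - x z * u z = y z * v z := by linear_combination -huv z hz
  have h4 := norm_nonneg (x z)
  have h5 := norm_nonneg (y z)
  have h6 := norm_nonneg (u z)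
  have h7 := norm_nonneg (v z)
  have h8 := norm_nonneg (g z)
  rw [h3, hX z hz, hY z hz, norm_mul, norm_mul, norm_mul, norm_mul]
  refine ⟨by nlinarith [mul_nonneg h6 h5], ?_, ?_⟩
  · calc ‖x z‖ * ‖u z‖ * (‖g z‖ * ‖x z‖ + ‖g z‖ * ‖y z‖)
        = (‖g z‖ * ‖x z‖) * (‖u z‖ * (‖x z‖ + ‖y z‖)) := by ring
      _ ≤ (‖g z‖ * ‖x z‖) * C := mul_le_mul_of_nonneg_left h1 (by positivity)
      _ = C * (‖g z‖ * ‖x z‖) := by ring
  · calc ‖y z‖ * ‖v z‖ * (‖g z‖ * ‖x z‖ + ‖g z‖ * ‖y z‖)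
        = (‖g z‖ * ‖y z‖) * (‖v z‖ * (‖x z‖ + ‖y z‖)) := by ring
      _ ≤ (‖g z‖ * ‖y z‖) * C := mul_le_mul_of_nonneg_left h2 (by positivity)
      _ = C * (‖g z‖ * ‖y z‖) := by ring

/-- **The cut off functions on convex sets.** -/
theorem cut_convex {K : Set ℂ} (hK : PosCap K)
    (hinf : ∀ a ∈ K, ∀ ε > 0, {b | b ∈ K ∧ ‖b - a‖ < ε}.Infinite) : ∃ C : ℝ, ∀ {n : ℕ}
    (V : Set (EuclideanSpace ℂ (Fin n))) (X Y : EuclideanSpace ℂ (Fin n) → ℂ), IsOpen V →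
    Convex ℝ V → Bornology.IsBounded V → DifferentiableOn ℂ X V → DifferentiableOn ℂ Y V →
    (∀ a ∈ K, ∀ z ∈ V, Y z ≠ 0 → X z - a * Y z ≠ 0) → Cut V X Y C := by
  obtain ⟨C, hC⟩ := pair_convex hK
  obtain ⟨a, ha⟩ := hK.nonempty
  refine ⟨max C 1, fun {n} V X Y hV hc hVb hX hY h => ?_⟩
  by_cases hY0 : ∀ z ∈ V, Y z = 0
  · refine ⟨fun _ => 1, differentiableOn_const _, fun z hz => ?_⟩
    rw [hY0 z hz]
    simp only [norm_one, norm_zero, add_zero, one_mul, sub_self, zero_mul, mul_zero, le_refl,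
      and_true]
    exact ⟨le_max_right _ _, le_mul_of_one_le_left (norm_nonneg _) (le_max_right _ _)⟩
  push Not at hY0
  obtain ⟨z₁, hz₁, hz₁0⟩ := hY0
  have hcl : ∀ z ∈ V, z ∈ closure {w | w ∈ V ∧ Y w ≠ 0} := fun z hz =>
    dense_of_convex hV hc hY hz₁ hz₁0 hz
  obtain ⟨ψ, hψ, hψe⟩ := exists_factor hV hX hY h hinf hcl ha
  have hne := factor_ne_zero hV hX hY h hinf hcl ha hψ hψe
  have hP : Pair V (fun z => 1 + a * ψ z) ψ C := by
    refine hC V _ ψ hV hc hVb ((hψ.const_mul a).const_add 1) hψ fun b hb z hz => ?_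
    have h1 : 1 + a * ψ z - b * ψ z = 1 + (a - b) * ψ z := by ring
    rw [h1]
    exact hne b hb z hz
  have hcut := cut_of_factor (X := X) (Y := Y) (g := fun z => X z - a * Y z)
    ((hψ.const_mul a).const_add 1) (fun z hz => by linear_combination a * hψe z hz)
    (fun z hz => by rw [mul_comm]; exact hψe z hz) hP
  obtain ⟨φ, h1, h2⟩ := hcut
  refine ⟨φ, h1, fun z hz => ?_⟩
  obtain ⟨h3, h4, h5⟩ := h2 z hz
  exact ⟨h3.trans (le_max_left _ _), h4.trans (mul_le_mul_of_nonneg_right (le_max_left _ _)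
    (norm_nonneg _)), h5.trans (mul_le_mul_of_nonneg_right (le_max_left _ _) (norm_nonneg _))⟩

/-- the cut off functions near a boundary point, perfect sets -/
theorem cut_local' {n : ℕ} {D : Set (EuclideanSpace ℂ (Fin n))}
    (hD : Pool.Agent.Lib.MP_ca0fc2_an.IsStrictlyPscDomain D) {p : EuclideanSpace ℂ (Fin n)}
    (hp : p ∈ frontier D) {r : ℝ} (hr : 0 < r) {x y : EuclideanSpace ℂ (Fin n) → ℂ}
    (hx : DifferentiableOn ℂ x (D ∩ ball p r)) (hy : DifferentiableOn ℂ y (D ∩ ball p r))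
    {K : Set ℂ} (hK : PosCap K) (hinf : ∀ a ∈ K, ∀ ε > 0, {b | b ∈ K ∧ ‖b - a‖ < ε}.Infinite)
    (h : ∀ a ∈ K, ∀ z ∈ D ∩ ball p r, y z ≠ 0 → x z - a * y z ≠ 0) :
    ∃ r' > 0, ∃ C, Cut (D ∩ ball p r') x y C := by
  obtain ⟨V, Θ, Ψ, r', hr', hVo, hVc, hVb, hΨ, hΨm, hΘ, hΘm, hinv⟩ := local_convex' hD hp hr
  obtain ⟨C, hC⟩ := cut_convex hK hinf
  obtain ⟨φ, hφ, h1⟩ := hC V (fun z => x (Ψ z)) (fun z => y (Ψ z)) hVo hVc hVb
    (hx.comp hΨ hΨm) (hy.comp hΨ hΨm) (fun a ha z hz => h a ha _ (hΨm hz))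
  refine ⟨r', hr', C, fun z => φ (Θ z), hφ.comp hΘ hΘm, fun z hz => ?_⟩
  have := h1 _ (hΘm hz)
  simp only [hinv z hz] at this
  exact this

/-- **The cut off functions near a boundary point.** -/
theorem cut_local {n : ℕ} {D : Set (EuclideanSpace ℂ (Fin n))}
    (hD : Pool.Agent.Lib.MP_ca0fc2_an.IsStrictlyPscDomain D) {p : EuclideanSpace ℂ (Fin n)}
    (hp : p ∈ frontier D) {r : ℝ} (hr : 0 < r) {x y : EuclideanSpace ℂ (Fin n) → ℂ}
    (hx : DifferentiableOn ℂ x (D ∩ ball p r)) (hy : DifferentiableOn ℂ y (D ∩ ball p r))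
    {K : Set ℂ} (hK : CapPos K) (h : ∀ a ∈ K, ∀ z ∈ D ∩ ball p r, y z ≠ 0 → x z ≠ a * y z) :
    ∃ r' > 0, ∃ C, Cut (D ∩ ball p r') x y C := by
  obtain ⟨K', hsub, hK', -, hinf⟩ := capPos_perfect hK
  exact cut_local' hD hp hr hx hy hK' hinf fun a ha z hz hz0 h1 =>
    h a (hsub ha) z hz hz0 (sub_eq_zero.1 h1)

/-- **Division.** -/
theorem div_of_le {E : Type*} [NormedAddCommGroup E] [NormedSpace ℂ E] [FiniteDimensional ℂ E]
    {W : Set E} (hW : IsOpen W) {T F : E → ℂ} (hT : DifferentiableOn ℂ T W)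
    (hF : DifferentiableOn ℂ F W) {C : ℝ} (hC : 0 ≤ C) (h : ∀ z ∈ W, ‖T z‖ ≤ C * ‖F z‖) :
    ∃ q : E → ℂ, DifferentiableOn ℂ q W ∧ (∀ z ∈ W, ‖q z‖ ≤ C) ∧ ∀ z ∈ W, T z = F z * q z := by
  classical
  obtain ⟨W₁, hW₁⟩ : ∃ W₁ : Set E, W₁ = {z | z ∈ W ∧ z ∈ closure {w | w ∈ W ∧ F w ≠ 0}} := ⟨_, rfl⟩
  have hsub : W₁ ⊆ W := by
    rw [hW₁]
    exact fun z hz => hz.1
  have hmem : ∀ z ∈ W, F z ≠ 0 → z ∈ W₁ := by
    intro z hz h0
    rw [hW₁]
    exact ⟨hz, subset_closure ⟨hz, h0⟩⟩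
  -- near a point of `W₁` all points are in `W₁`
  have hopen : IsOpen W₁ := by
    rw [isOpen_iff_mem_nhds]
    intro z hz
    obtain ⟨r, hr, hball⟩ := Metric.isOpen_iff.1 hW z (hsub hz)
    rw [hW₁] at hz
    obtain ⟨w, ⟨hw, hw0⟩, hwz⟩ := Metric.mem_closure_iff.1 hz.2 r hr
    refine mem_of_superset (ball_mem_nhds z hr) fun z' hz' => ?_
    rw [hW₁]
    refine ⟨hball hz', closure_mono ?_ (dense_of_convex isOpen_ball (convex_ball z r) (hF.mono hball)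
      (z₁ := w) (by rw [mem_ball, dist_comm]; exact hwz) hw0 hz')⟩
    exact fun s hs => ⟨hball hs.1, hs.2⟩
  have hcl : ∀ z ∈ W₁, z ∈ closure {w | w ∈ W₁ ∧ F w ≠ 0} := by
    intro z hz
    have h1 : z ∈ closure {w | w ∈ W ∧ F w ≠ 0} := by
      rw [hW₁] at hz
      exact hz.2
    exact closure_mono (show {w | w ∈ W ∧ F w ≠ 0} ⊆ {w | w ∈ W₁ ∧ F w ≠ 0} from
      fun w hw => ⟨hmem w hw.1 hw.2, hw.2⟩) h1
  have hsub2 : {w | w ∈ W₁ ∧ F w ≠ 0} ⊆ W := fun w hw => hsub hw.1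
  have hdiv : DifferentiableOn ℂ (fun z => T z / F z) {w | w ∈ W₁ ∧ F w ≠ 0} := by
    have h1 : DifferentiableOn ℂ (fun z => (F z)⁻¹) {w | w ∈ W₁ ∧ F w ≠ 0} :=
      DifferentiableOn.inv (hF.mono hsub2) fun w hw => hw.2
    simp only [div_eq_mul_inv]
    exact (hT.mono hsub2).mul h1
  have hbd : ∀ w ∈ W, F w ≠ 0 → ‖T w / F w‖ ≤ C := by
    intro w hw h0
    rw [norm_div, div_le_iff₀ (norm_pos_iff.2 h0)]
    exact h w hw
  obtain ⟨ψ, hψ, hψe⟩ := riemann_ext hopen (h := F) (hF.mono hsub) hcl (φ := fun z => T z / F z) hdiv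
    (fun z hz => ⟨1, one_pos, C, fun w hw _ h0 => hbd w (hsub hw) h0⟩)
  have hψb : ∀ z ∈ W₁, ‖ψ z‖ ≤ C := by
    intro z hz
    have h1 : ContinuousWithinAt (fun w => ‖ψ w‖) {w | w ∈ W₁ ∧ F w ≠ 0} z :=
      ((hψ.continuousOn z hz).norm).mono fun w hw => hw.1
    have h2 : (𝓝[{w | w ∈ W₁ ∧ F w ≠ 0}] z).NeBot := mem_closure_iff_nhdsWithin_neBot.1 (hcl z hz)
    refine le_of_tendsto h1 ?_
    filter_upwards [self_mem_nhdsWithin] with w hw
    rw [hψe w hw.1 hw.2]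
    exact hbd w (hsub hw.1) hw.2
  refine ⟨fun z => if z ∈ W₁ then ψ z else 0, fun z hz => ?_, fun z hz => ?_, fun z hz => ?_⟩
  · by_cases h1 : z ∈ W₁
    · have h2 : DifferentiableAt ℂ ψ z := (hψ z h1).differentiableAt (hopen.mem_nhds h1)
      refine (h2.congr_of_eventuallyEq ?_).differentiableWithinAt
      filter_upwards [hopen.mem_nhds h1] with w hw
      rw [if_pos hw]
    · have h2 : ∀ᶠ w in 𝓝 z, w ∉ W₁ := by
        have h3 : z ∉ closure {w | w ∈ W ∧ F w ≠ 0} := fun h4 => h1 (by rw [hW₁]; exact ⟨hz, h4⟩)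
        filter_upwards [isClosed_closure.isOpen_compl.mem_nhds h3] with w hw h5
        rw [hW₁] at h5
        exact hw h5.2
      have h3 : DifferentiableAt ℂ (fun _ : E => (0 : ℂ)) z := differentiableAt_const _
      refine (h3.congr_of_eventuallyEq ?_).differentiableWithinAt
      filter_upwards [h2] with w hw
      rw [if_neg hw]
  · simp only
    split_ifs with h1
    · exact hψb z h1
    · rw [norm_zero]
      exact hC
  · by_cases h0 : F z = 0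
    · have h1 := h z hz
      rw [h0, norm_zero, mul_zero] at h1
      rw [h0, zero_mul]
      exact norm_le_zero_iff.1 h1
    · simp only
      rw [if_pos (hmem z hz h0), hψe z (hmem z hz h0) h0, mul_div_cancel₀ _ h0]

end Pool.Agent.MPca0fc2.OV
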