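import Pool.Agent.Lib.MP_ca0fc2_an.Mg.G007
import Pool.Agent.Lib.MP_ca0fc2_an.LV.S5
import Pool.Agent.Lib.MP_ca0fc2_an.Mg.G116

/-! Campaign OV: strictly pseudoconvex domains are locally biholomorphic to convex sets; pairs near a boundary point. -/

set_option autoImplicit false

open Metric Set MeasureTheory Filter Topology
open scoped ContDiff

namespace Pool.Agent.MPca0fc2.OV

/-- a set on which a function lies above its tangents has convex sublevel sets -/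
private theorem sub_convex {n : ℕ} {q : EuclideanSpace ℂ (Fin n) → ℝ} {a c₁ : ℝ} (hc : 0 ≤ c₁)
    (hq : ∀ x ∈ ball (0 : EuclideanSpace ℂ (Fin n)) a, ∀ y ∈ ball (0 : EuclideanSpace ℂ (Fin n)) a,
      q x + fderiv ℝ q x (y - x) + c₁ * ‖y - x‖ ^ 2 ≤ q y) :
    Convex ℝ {x | x ∈ ball (0 : EuclideanSpace ℂ (Fin n)) a ∧ q x < 0} := by
  rintro x ⟨hx, hqx⟩ y ⟨hy, hqy⟩ s t hs ht hst
  have hz : s • x + t • y ∈ ball (0 : EuclideanSpace ℂ (Fin n)) a := convex_ball 0 a hx hy hs ht hst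
  refine ⟨hz, ?_⟩
  have h1 := hq _ hz x hx
  have h2 := hq _ hz y hy
  have h3 : s • (x - (s • x + t • y)) + t • (y - (s • x + t • y)) = 0 := by
    have h4 : s • (x - (s • x + t • y)) + t • (y - (s • x + t • y)) =
        (s • x + t • y) - (s + t) • (s • x + t • y) := by
      rw [add_smul, smul_sub, smul_sub]
      abel
    rw [h4, hst, one_smul, sub_self]
  have h5 : s * fderiv ℝ q (s • x + t • y) (x - (s • x + t • y)) +
      t * fderiv ℝ q (s • x + t • y) (y - (s • x + t • y)) = 0 := by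
    have := congrArg (fderiv ℝ q (s • x + t • y)) h3
    rw [map_add, map_smul, map_smul, map_zero, smul_eq_mul, smul_eq_mul] at this
    exact this
  have h6 : 0 ≤ c₁ * ‖x - (s • x + t • y)‖ ^ 2 := by positivity
  have h7 : 0 ≤ c₁ * ‖y - (s • x + t • y)‖ ^ 2 := by positivity
  have h8 : s * q (s • x + t • y) + t * q (s • x + t • y) = q (s • x + t • y) := by
    rw [← add_mul, hst, one_mul]
  have h9 : q (s • x + t • y) ≤ s * q x + t * q y := by nlinarith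
  rcases hs.eq_or_lt with h10 | h10
  · rw [← h10] at hst h9
    have h11 : t = 1 := by linarith
    rw [← h10, h11] at *
    simpa using hqy
  · nlinarith

/-- PROOF. `GW.convexify`; `V' = {x ∈ ball 0 a | ρ (Φ x) < 0}`. -/
theorem local_convex' {n : ℕ} {D : Set (EuclideanSpace ℂ (Fin n))}
    (hD : Pool.Agent.Lib.MP_ca0fc2_an.IsStrictlyPscDomain D) {p : EuclideanSpace ℂ (Fin n)}
    (hp : p ∈ frontier D) {r : ℝ} (hr : 0 < r) :
    ∃ (V' : Set (EuclideanSpace ℂ (Fin n)))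
      (Θ Ψ : EuclideanSpace ℂ (Fin n) → EuclideanSpace ℂ (Fin n)) (r' : ℝ), 0 < r' ∧ IsOpen V' ∧
      Convex ℝ V' ∧ Bornology.IsBounded V' ∧ DifferentiableOn ℂ Ψ V' ∧ MapsTo Ψ V' (D ∩ ball p r) ∧
      DifferentiableOn ℂ Θ (D ∩ ball p r') ∧ MapsTo Θ (D ∩ ball p r') V' ∧
      ∀ z ∈ D ∩ ball p r', Ψ (Θ z) = z := by
  obtain ⟨U, ρ, h, c, hs, hρ⟩ := LV.support_of_domain hD
  obtain ⟨a, L, c₁, Φ, cv⟩ := GW.convexify hs (hρ.of_le (by exact WithTop.coe_le_coe.2 le_top)) hp hr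
  obtain ⟨Ψ, hΨ, hΨΦ⟩ := cv.inv
  have hopn : IsOpen (Φ '' ball 0 a) := cv.opn _ isOpen_ball subset_rfl
  have hpm : p ∈ Φ '' ball 0 a := ⟨0, mem_ball_self cv.a0, cv.zero⟩
  obtain ⟨r', hr', hsub⟩ := Metric.isOpen_iff.1 hopn p hpm
  have hmem : ∀ x ∈ ball (0 : EuclideanSpace ℂ (Fin n)) a, ρ (Φ x) < 0 ↔ Φ x ∈ D := by
    intro x hx
    rw [hs.eq]
    exact ⟨fun h1 => ⟨(cv.map x hx).2, h1⟩, fun h1 => h1.2⟩
  have hinv : ∀ z ∈ Φ '' ball 0 a, Ψ z ∈ ball (0 : EuclideanSpace ℂ (Fin n)) a ∧ Φ (Ψ z) = z := by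
    rintro z ⟨x, hx, rfl⟩
    rw [hΨΦ x hx]
    exact ⟨hx, rfl⟩
  refine ⟨{x | x ∈ ball (0 : EuclideanSpace ℂ (Fin n)) a ∧ ρ (Φ x) < 0}, Ψ, Φ, r', hr',
    cv.q3.continuousOn.isOpen_inter_preimage isOpen_ball isOpen_Iio,
    sub_convex cv.c0.le cv.conv, isBounded_ball.subset fun x hx => hx.1,
    cv.hol.mono fun x hx => hx.1, fun x hx => ⟨(hmem x hx.1).1 hx.2, (cv.map x hx.1).1⟩,
    hΨ.mono fun z hz => hsub hz.2, fun z hz => ?_, fun z hz => (hinv z (hsub hz.2)).2⟩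
  obtain ⟨h1, h2⟩ := hinv z (hsub hz.2)
  exact ⟨h1, (hmem _ h1).2 (by rw [h2]; exact hz.1)⟩

/-- PROOF. `local_convex'` and `pair_convex`. -/
theorem pair_local' {n : ℕ} {D : Set (EuclideanSpace ℂ (Fin n))}
    (hD : Pool.Agent.Lib.MP_ca0fc2_an.IsStrictlyPscDomain D) {p : EuclideanSpace ℂ (Fin n)}
    (hp : p ∈ frontier D) {r : ℝ} (hr : 0 < r) {x y : EuclideanSpace ℂ (Fin n) → ℂ}
    (hx : DifferentiableOn ℂ x (D ∩ ball p r)) (hy : DifferentiableOn ℂ y (D ∩ ball p r))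
    {K : Set ℂ} (hK : PosCap K) (h : ∀ a ∈ K, ∀ z ∈ D ∩ ball p r, x z - a * y z ≠ 0) :
    ∃ r' > 0, ∃ C, Pair (D ∩ ball p r') x y C := by
  obtain ⟨V, Θ, Ψ, r', hr', hVo, hVc, hVb, hΨ, hΨm, hΘ, hΘm, hinv⟩ := local_convex' hD hp hr
  obtain ⟨C, hC⟩ := pair_convex hK
  obtain ⟨u, v, hu, hv, h1, h2⟩ := hC V (fun z => x (Ψ z)) (fun z => y (Ψ z)) hVo hVc hVb
    (hx.comp hΨ hΨm) (hy.comp hΨ hΨm) (fun a ha z hz => h a ha _ (hΨm hz))
  refine ⟨r', hr', C, fun z => u (Θ z), fun z => v (Θ z), hu.comp hΘ hΘm, hv.comp hΘ hΘm,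
    fun z hz => ?_, fun z hz => ?_⟩
  · have := h1 _ (hΘm hz)
    simp only [hinv z hz] at this
    exact this
  · have := h2 _ (hΘm hz)
    simp only [hinv z hz] at this
    exact this

theorem local_convex {n : ℕ} (_hn : 2 ≤ n) {D : Set (EuclideanSpace ℂ (Fin n))}
    (hD : Pool.Agent.Lib.MP_ca0fc2_an.IsStrictlyPscDomain D) {p : EuclideanSpace ℂ (Fin n)}
    (hp : p ∈ frontier D) {r : ℝ} (hr : 0 < r) :
    ∃ (V' : Set (EuclideanSpace ℂ (Fin n)))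
      (Θ Ψ : EuclideanSpace ℂ (Fin n) → EuclideanSpace ℂ (Fin n)) (r' : ℝ), 0 < r' ∧ IsOpen V' ∧
      Convex ℝ V' ∧ Bornology.IsBounded V' ∧ DifferentiableOn ℂ Ψ V' ∧ MapsTo Ψ V' (D ∩ ball p r) ∧
      DifferentiableOn ℂ Θ (D ∩ ball p r') ∧ MapsTo Θ (D ∩ ball p r') V' ∧
      ∀ z ∈ D ∩ ball p r', Ψ (Θ z) = z :=
  local_convex' hD hp hr

theorem pair_local {n : ℕ} (_hn : 2 ≤ n) {D : Set (EuclideanSpace ℂ (Fin n))}
    (hD : Pool.Agent.Lib.MP_ca0fc2_an.IsStrictlyPscDomain D) {p : EuclideanSpace ℂ (Fin n)}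
    (hp : p ∈ frontier D) {r : ℝ} (hr : 0 < r) {x y : EuclideanSpace ℂ (Fin n) → ℂ}
    (hx : DifferentiableOn ℂ x D) (hy : DifferentiableOn ℂ y D) {K : Set ℂ} (hK : PosCap K)
    (h : ∀ a ∈ K, ∀ z ∈ D ∩ ball p r, x z - a * y z ≠ 0) :
    ∃ r' > 0, ∃ C, Pair (D ∩ ball p r') x y C :=
  pair_local' hD hp hr (hx.mono inter_subset_left) (hy.mono inter_subset_left) hK h

end Pool.Agent.MPca0fc2.OV
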