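import Pool.Agent.Lib.MP_ca0fc2_an.Mg.G112

/-! Campaign OV, part F: families. -/

set_option autoImplicit false

open Metric Set MeasureTheory Filter Topology

namespace Pool.Agent.MPca0fc2.OV

/-- Induction over the finite set (from two elements): for a new index `k` and the solution `m` of the old
family, `m' i = m i * f i * u_{ik}`, `m' k = ∑ m i * f i * v_{ik}`, where `f i u_{ik} + f k v_{ik} = 1`. -/
theorem family {E ι : Type*} [NormedAddCommGroup E] [NormedSpace ℂ E] [DecidableEq ι] {V : Set E}
    {f : ι → E → ℂ} (hf : ∀ i, DifferentiableOn ℂ (f i) V) (G : Finset ι) (hG : 2 ≤ G.card)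
    (hp : ∀ i ∈ G, ∀ j ∈ G, i ≠ j → ∃ C, Pair V (f i) (f j) C) :
    ∃ (m : ι → E → ℂ) (C : ℝ), (∀ i, DifferentiableOn ℂ (m i) V) ∧
      (∀ z ∈ V, ∑ i ∈ G, f i z * m i z = 1) ∧
      ∀ z ∈ V, ∀ i ∈ G, ∀ j ∈ G, ‖m i z‖ * ‖f j z‖ ≤ C := by
  induction G using Finset.induction_on with
  | empty => simp at hG
  | insert k G hk ih =>
    rw [Finset.card_insert_of_notMem hk] at hG
    by_cases hG2 : 2 ≤ G.card
    · -- the induction step
      obtain ⟨m, C, hm, h1, h2⟩ := ih hG2 fun i hi j hj hij =>
        hp i (Finset.mem_insert_of_mem hi) j (Finset.mem_insert_of_mem hj) hij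
      have hne : ∀ i ∈ G, i ≠ k := fun i hi h => hk (h ▸ hi)
      have hp' : ∀ i, ∃ (u v : E → ℂ) (C' : ℝ), DifferentiableOn ℂ u V ∧ DifferentiableOn ℂ v V ∧
          (i ∈ G → (∀ z ∈ V, f i z * u z + f k z * v z = 1) ∧
            ∀ z ∈ V, ‖u z‖ * (‖f i z‖ + ‖f k z‖) ≤ C' ∧ ‖v z‖ * (‖f i z‖ + ‖f k z‖) ≤ C') := by
        intro i
        by_cases hi : i ∈ G
        · obtain ⟨C', u, v, hu, hv, e1, e2⟩ :=
            hp i (Finset.mem_insert_of_mem hi) k (Finset.mem_insert_self k G) (hne i hi)
          exact ⟨u, v, C', hu, hv, fun _ => ⟨e1, e2⟩⟩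
        · exact ⟨0, 0, 0, differentiableOn_const 0, differentiableOn_const 0,
            fun h => absurd h hi⟩
      choose u v C' hu hv huv using hp'
      set K : ℝ := ∑ i ∈ G, |C' i| with hK
      have hCK : ∀ i ∈ G, C' i ≤ K := fun i hi =>
        (le_abs_self _).trans (Finset.single_le_sum (f := fun i => |C' i|)
          (fun _ _ => abs_nonneg _) hi)
      have hK0 : 0 ≤ K := Finset.sum_nonneg fun _ _ => abs_nonneg _
      refine ⟨fun j => if j = k then fun z => ∑ i ∈ G, m i z * f i z * v i z
        else fun z => m j z * f j z * u j z, G.card * (|C| * K) + |C| * K, ?_, ?_, ?_⟩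
      · intro j
        by_cases hj : j = k
        · simp only [if_pos hj]
          exact DifferentiableOn.fun_sum fun i _ => ((hm i).mul (hf i)).mul (hv i)
        · simp only [if_neg hj]
          exact ((hm j).mul (hf j)).mul (hu j)
      · intro z hz
        rw [Finset.sum_insert hk]
        simp only [if_true]
        have e1 : ∑ i ∈ G, f i z * (if i = k then fun z => ∑ i ∈ G, m i z * f i z * v i z
            else fun z => m i z * f i z * u i z) z = ∑ i ∈ G, f i z * (m i z * f i z * u i z) := by
          refine Finset.sum_congr rfl fun i hi => ?_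
          rw [if_neg (hne i hi)]
        rw [e1, Finset.mul_sum, ← Finset.sum_add_distrib, ← h1 z hz]
        refine Finset.sum_congr rfl fun i hi => ?_
        have e2 := ((huv i hi).1 z hz)
        calc f k z * (m i z * f i z * v i z) + f i z * (m i z * f i z * u i z)
            = m i z * f i z * (f i z * u i z + f k z * v i z) := by ring
          _ = f i z * m i z := by rw [e2]; ring
      · intro z hz i hi j hj
        have hCabs : ∀ i ∈ G, ∀ j ∈ G, ‖m i z‖ * ‖f j z‖ ≤ |C| := fun i hi j hj =>
          (h2 z hz i hi j hj).trans (le_abs_self C)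
        have b1 : ∀ i ∈ G, ‖u i z‖ * ‖f i z‖ ≤ K ∧ ‖u i z‖ * ‖f k z‖ ≤ K ∧
            ‖v i z‖ * ‖f i z‖ ≤ K ∧ ‖v i z‖ * ‖f k z‖ ≤ K := by
          intro i hi
          obtain ⟨e1, e2⟩ := (huv i hi).2 z hz
          have e3 := hCK i hi
          have n1 := norm_nonneg (u i z)
          have n2 := norm_nonneg (v i z)
          have n3 := norm_nonneg (f i z)
          have n4 := norm_nonneg (f k z)
          refine ⟨?_, ?_, ?_, ?_⟩ <;> nlinarith
        have hCK0 : 0 ≤ |C| * K := mul_nonneg (abs_nonneg _) hK0
        have key : ∀ i ∈ G, ∀ w : ℂ, ‖w‖ * ‖f i z‖ ≤ K → ‖w‖ * ‖f k z‖ ≤ K →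
            ‖m i z * f i z * w‖ * ‖f j z‖ ≤ |C| * K := by
          intro i hi w hw1 hw2
          rw [norm_mul, norm_mul]
          rcases Finset.mem_insert.1 hj with hjk | hjG
          · rw [hjk]
            calc ‖m i z‖ * ‖f i z‖ * ‖w‖ * ‖f k z‖
                = (‖m i z‖ * ‖f i z‖) * (‖w‖ * ‖f k z‖) := by ring
              _ ≤ |C| * K := mul_le_mul (hCabs i hi i hi) hw2 (by positivity) (abs_nonneg _)
          · calc ‖m i z‖ * ‖f i z‖ * ‖w‖ * ‖f j z‖
                = (‖m i z‖ * ‖f j z‖) * (‖w‖ * ‖f i z‖) := by ring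
              _ ≤ |C| * K := mul_le_mul (hCabs i hi j hjG) hw1 (by positivity) (abs_nonneg _)
        have hcard : 0 ≤ (G.card : ℝ) * (|C| * K) := by positivity
        by_cases hik : i = k
        · simp only [if_pos hik]
          have e3 : ‖∑ i ∈ G, m i z * f i z * v i z‖ * ‖f j z‖ ≤ G.card * (|C| * K) := by
            calc ‖∑ i ∈ G, m i z * f i z * v i z‖ * ‖f j z‖
                ≤ (∑ i ∈ G, ‖m i z * f i z * v i z‖) * ‖f j z‖ :=
                  mul_le_mul_of_nonneg_right (norm_sum_le _ _) (norm_nonneg _)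
              _ = ∑ i ∈ G, ‖m i z * f i z * v i z‖ * ‖f j z‖ := Finset.sum_mul _ _ _
              _ ≤ ∑ _i ∈ G, |C| * K := Finset.sum_le_sum fun i hi =>
                  key i hi _ (b1 i hi).2.2.1 (b1 i hi).2.2.2
              _ = G.card * (|C| * K) := by rw [Finset.sum_const, nsmul_eq_mul]
          linarith
        · simp only [if_neg hik]
          have hiG : i ∈ G := (Finset.mem_insert.1 hi).resolve_left hik
          have e3 := key i hiG _ (b1 i hiG).1 (b1 i hiG).2.1
          linarith
    · -- two elements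
      have hc1 : G.card = 1 := by omega
      obtain ⟨a, ha⟩ := Finset.card_eq_one.1 hc1
      subst ha
      have hak : a ≠ k := fun h => hk (by simp [h])
      obtain ⟨C, u, v, hu, hv, h1, h2⟩ := hp a (by simp) k (by simp) hak
      refine ⟨fun j => if j = k then v else if j = a then u else 0, |C|, ?_, ?_, ?_⟩
      · intro j
        by_cases hj : j = k
        · simp only [if_pos hj]; exact hv
        · by_cases hj' : j = a
          · simp only [if_neg hj, if_pos hj']; exact hu
          · simp only [if_neg hj, if_neg hj']; exact differentiableOn_const 0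
      · intro z hz
        rw [Finset.sum_insert hk, Finset.sum_singleton]
        simp only [if_true, if_neg hak]
        rw [← h1 z hz]; ring
      · intro z hz i hi j hj
        obtain ⟨e1, e2⟩ := h2 z hz
        have n1 := norm_nonneg (u z)
        have n2 := norm_nonneg (v z)
        have n3 := norm_nonneg (f a z)
        have n4 := norm_nonneg (f k z)
        have n5 := le_abs_self C
        have hi' : i = k ∨ i = a := by simpa using hi
        have hj' : j = k ∨ j = a := by simpa using hj
        rcases hi' with rfl | rfl <;> rcases hj' with rfl | rfl <;>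
          simp only [if_true, if_neg hak] <;> nlinarith

end Pool.Agent.MPca0fc2.OV
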