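import Pool.Agent.Lib.MP_ca0fc2_an.OV.F
import Pool.Agent.Lib.MP_ca0fc2_an.SGHDefs

/-! Campaign OV, row H0: cells. -/

set_option autoImplicit false

open Metric Set MeasureTheory Filter Topology
open Pool.Agent.Lib.MP_ca0fc2_an

namespace Pool.Agent.MPca0fc2.OV

/-- a function which is bounded from below solves the equation -/
private theorem H0_single {n N : ℕ} {C : Set (EuclideanSpace ℂ (Fin n))}
    {f : Fin N → EuclideanSpace ℂ (Fin n) → ℂ} {i : Fin N} (hf : DifferentiableOn ℂ (f i) C)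
    {σ : ℝ} (hσ : 0 < σ) (h : ∀ z ∈ C, σ ≤ ‖f i z‖) :
    ∃ g : Fin N → EuclideanSpace ℂ (Fin n) → ℂ, (∀ j, IsHinf C (g j)) ∧
      ∀ z ∈ C, ∑ j, f j z * g j z = 1 := by
  classical
  have hne : ∀ z ∈ C, f i z ≠ 0 := fun z hz h0 => by
    have := h z hz
    rw [h0, norm_zero] at this
    linarith
  refine ⟨fun j z => if j = i then (f i z)⁻¹ else 0, fun j => ?_, fun z hz => ?_⟩
  · by_cases hj : j = i
    · simp only [hj, if_true]
      refine ⟨hf.inv hne, σ⁻¹, fun z hz => ?_⟩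
      rw [norm_inv]
      exact inv_anti₀ hσ (h z hz)
    · simp only [hj, if_false]
      exact ⟨differentiableOn_const _, 0, fun z _ => by rw [norm_zero]⟩
  · rw [Finset.sum_eq_single i]
    · beta_reduce
      rw [if_pos rfl]
      exact mul_inv_cancel₀ (hne z hz)
    · intro j _ hj
      beta_reduce
      rw [if_neg hj, mul_zero]
    · exact fun h => absurd (Finset.mem_univ i) h

/-- On a set on which the functions `f i`, `i ∉ J`, are nearly constant, and on which the homogeneous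
equation is solvable for all pairs of functions `f i`, `i ∈ J`, the equation is solvable. -/
theorem cell_solve {n N : ℕ} {C : Set (EuclideanSpace ℂ (Fin n))}
    {f : Fin N → EuclideanSpace ℂ (Fin n) → ℂ} (hf : ∀ j, DifferentiableOn ℂ (f j) C) {δ : ℝ}
    (hδ : 0 < δ) (hfδ : ∀ z ∈ C, δ ≤ ∑ j, ‖f j z‖ ^ 2) (J : Finset (Fin N))
    (hJ : ∀ i ∈ J, ∀ k ∈ J, i ≠ k → ∃ K, Pair C (f i) (f k) K) {ε : ℝ} (hε : 0 < ε)
    (hεδ : N * (9 * ε ^ 2) ≤ δ / 2) {c : Fin N → ℂ} (hcell : ∀ z ∈ C, ∀ i, i ∉ J →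
      ‖f i z - c i‖ < ε) :
    ∃ g : Fin N → EuclideanSpace ℂ (Fin n) → ℂ, (∀ j, IsHinf C (g j)) ∧
      ∀ z ∈ C, ∑ j, f j z * g j z = 1 := by
  classical
  by_cases hc : ∃ i, i ∉ J ∧ 2 * ε ≤ ‖c i‖
  · obtain ⟨i, hi, hci⟩ := hc
    refine H0_single (hf i) hε fun z hz => ?_
    have h1 := hcell z hz i hi
    have h2 : ‖c i‖ ≤ ‖f i z‖ + ‖f i z - c i‖ := by
      calc ‖c i‖ = ‖f i z - (f i z - c i)‖ := by congr 1; ring
        _ ≤ _ := norm_sub_le _ _
    linarith
  push Not at hc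
  have hbig : ∀ z ∈ C, δ / 2 ≤ ∑ i ∈ J, ‖f i z‖ ^ 2 := by
    intro z hz
    have h1 := hfδ z hz
    rw [← Finset.sum_add_sum_compl J] at h1
    have h2 : ∑ i ∈ Jᶜ, ‖f i z‖ ^ 2 ≤ N * (9 * ε ^ 2) := by
      calc ∑ i ∈ Jᶜ, ‖f i z‖ ^ 2 ≤ ∑ _i ∈ Jᶜ, 9 * ε ^ 2 := by
            refine Finset.sum_le_sum fun i hi => ?_
            have hi' : i ∉ J := Finset.mem_compl.1 hi
            have h3 := hcell z hz i hi'
            have h4 := hc i hi'
            have h5 : ‖f i z‖ ≤ 3 * ε := by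
              calc ‖f i z‖ = ‖(f i z - c i) + c i‖ := by congr 1; ring
                _ ≤ ‖f i z - c i‖ + ‖c i‖ := norm_add_le _ _
                _ ≤ 3 * ε := by linarith
            calc ‖f i z‖ ^ 2 ≤ (3 * ε) ^ 2 := pow_le_pow_left₀ (norm_nonneg _) h5 2
              _ = 9 * ε ^ 2 := by ring
        _ = (Jᶜ.card : ℝ) * (9 * ε ^ 2) := by rw [Finset.sum_const, nsmul_eq_mul]
        _ ≤ N * (9 * ε ^ 2) := by
            refine mul_le_mul_of_nonneg_right ?_ (by positivity)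
            have h6 := Finset.card_le_univ Jᶜ
            rw [Fintype.card_fin] at h6
            exact_mod_cast h6
    linarith
  rcases C.eq_empty_or_nonempty with hE | ⟨z₀, hz₀⟩
  · rw [hE]
    exact ⟨fun _ _ => 0, fun j => ⟨fun z hz => absurd hz (notMem_empty z), 0,
      fun z hz => absurd hz (notMem_empty z)⟩, fun z hz => absurd hz (notMem_empty z)⟩
  rcases Nat.lt_or_ge J.card 2 with hcard | hcard
  · -- one function
    have hne : J.Nonempty := by
      rw [Finset.nonempty_iff_ne_empty]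
      intro h0
      have h1 := hbig z₀ hz₀
      rw [h0, Finset.sum_empty] at h1
      linarith
    obtain ⟨i, hi⟩ := Finset.card_eq_one.1 (le_antisymm (by omega) (Finset.card_pos.2 hne))
    refine H0_single (i := i) (hf i) (Real.sqrt_pos.2 (half_pos hδ)) fun z hz => ?_
    have h1 := hbig z hz
    rw [hi, Finset.sum_singleton] at h1
    rw [← Real.sqrt_sq (norm_nonneg (f i z))]
    exact Real.sqrt_le_sqrt h1
  · obtain ⟨m, K, hm, hm1, hmK⟩ := family hf J hcard hJ
    obtain ⟨κ, hκ, hκ2⟩ : ∃ κ > 0, (J.card : ℝ) * κ ^ 2 < δ / 2 := by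
      refine ⟨√(δ / (2 * (J.card + 1))), Real.sqrt_pos.2 (by positivity), ?_⟩
      rw [Real.sq_sqrt (by positivity)]
      have h1 : (J.card : ℝ) * (δ / (2 * (J.card + 1))) = J.card / (J.card + 1) * (δ / 2) := by
        field_simp
      rw [h1]
      have h2 : (J.card : ℝ) / (J.card + 1) < 1 := by
        rw [div_lt_one (by positivity)]
        linarith
      nlinarith
    have hex : ∀ z ∈ C, ∃ j ∈ J, κ ≤ ‖f j z‖ := by
      intro z hz
      by_contra hcon
      push Not at hcon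
      have h1 := hbig z hz
      have h2 : ∑ i ∈ J, ‖f i z‖ ^ 2 ≤ J.card * κ ^ 2 := by
        calc ∑ i ∈ J, ‖f i z‖ ^ 2 ≤ ∑ _i ∈ J, κ ^ 2 :=
              Finset.sum_le_sum fun i hi => pow_le_pow_left₀ (norm_nonneg _) (hcon i hi).le 2
          _ = J.card * κ ^ 2 := by rw [Finset.sum_const, nsmul_eq_mul]
      linarith
    refine ⟨fun j z => if j ∈ J then m j z else 0, fun j => ?_, fun z hz => ?_⟩
    · by_cases hj : j ∈ J
      · simp only [hj, if_true]
        refine ⟨hm j, K / κ, fun z hz => ?_⟩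
        obtain ⟨k, hk, hkz⟩ := hex z hz
        rw [le_div_iff₀ hκ]
        exact (mul_le_mul_of_nonneg_left hkz (norm_nonneg _)).trans (hmK z hz j hj k hk)
      · simp only [hj, if_false]
        exact ⟨differentiableOn_const _, 0, fun z _ => by rw [norm_zero]⟩
    · rw [← hm1 z hz, ← Finset.sum_subset (Finset.subset_univ J) fun j _ hj => by
        beta_reduce
        rw [if_neg hj, mul_zero]]
      refine Finset.sum_congr rfl fun j hj => ?_
      beta_reduce
      rw [if_pos hj]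

theorem exists_eps (N : ℕ) {δ : ℝ} (hδ : 0 < δ) : ∃ ε > 0, (N : ℝ) * (9 * ε ^ 2) ≤ δ / 2 := by
  refine ⟨√(δ / (18 * (N + 1))), Real.sqrt_pos.2 (by positivity), ?_⟩
  rw [Real.sq_sqrt (by positivity)]
  have h1 : (N : ℝ) * (9 * (δ / (18 * (N + 1)))) = N / (N + 1) * (δ / 2) := by
    field_simp
    ring
  rw [h1]
  have h2 : (N : ℝ) / (N + 1) ≤ 1 := by
    rw [div_le_one (by positivity)]
    linarith
  nlinarith

end Pool.Agent.MPca0fc2.OV
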