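import Pool.Agent.Lib.MP_ca0fc2_an.Mg.G112

/-! Campaign OV, row H2: cells over the points of the spectrum, polynomials. -/

set_option autoImplicit false

open Metric Set MeasureTheory Filter Topology
open Pool.Agent.Lib.MP_ca0fc2_an
open Pool.Agent.MPca0fc2.LS (fib exists_cell)

namespace Pool.Agent.MPca0fc2.OV

/-- At a point of the spectrum of `T` (given by the ultrafilter `U`): if the functions `P i (f)`, `i ∉ J`,
belong to `T`, and each pair of functions `P i (f)`, `i ∈ J`, solves the homogeneous equation on some set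
of the filter of the cells, then the equation is solvable on some cell. -/
theorem ov_solve {n N M : ℕ} {D : Set (EuclideanSpace ℂ (Fin n))} {p : EuclideanSpace ℂ (Fin n)}
    {T : Set (EuclideanSpace ℂ (Fin n) → ℂ)} {f : Fin N → EuclideanSpace ℂ (Fin n) → ℂ}
    (hf : ∀ j, IsHinf D (f j)) {δ : ℝ} (hδ : 0 < δ) (hfδ : ∀ z ∈ D, δ ≤ ∑ j, ‖f j z‖ ^ 2)
    {P : Fin M → MvPolynomial (Fin N) ℂ} (h0 : ∀ i, MvPolynomial.eval 0 (P i) = 0)
    (hfin : {y : Fin N → ℂ | ∀ i, MvPolynomial.eval y (P i) = 0}.Finite)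
    (J : Finset (Fin M)) (hT : ∀ i, i ∉ J → (fun z => MvPolynomial.eval (fun j => f j z) (P i)) ∈ T)
    {U : Ultrafilter (EuclideanSpace ℂ (Fin n))} (hU : (U : Filter _) ≤ 𝓝[D] p)
    (hJ : ∀ i ∈ J, ∀ k ∈ J, i ≠ k → ∃ S ∈ fib D p T U, ∃ K,
      Pair S (fun z => MvPolynomial.eval (fun j => f j z) (P i))
        (fun z => MvPolynomial.eval (fun j => f j z) (P k)) K) :
    ∃ (m : ℕ) (u : Fin m → EuclideanSpace ℂ (Fin n) → ℂ) (c : Fin m → ℂ) (ε : ℝ), 0 < ε ∧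
      (∀ i, u i ∈ T) ∧ (∀ i, Tendsto (u i) U (𝓝 (c i))) ∧
      ∃ h : Fin N → EuclideanSpace ℂ (Fin n) → ℂ,
      (∀ j, IsHinf {z | z ∈ D ∩ ball p ε ∧ ∀ i, ‖u i z - c i‖ < ε} (h j)) ∧
      ∀ z ∈ {z | z ∈ D ∩ ball p ε ∧ ∀ i, ‖u i z - c i‖ < ε}, ∑ j, f j z * h j z = 1 := by
  classical
  have hDU : D ∈ U := hU self_mem_nhdsWithin
  -- the limits of the functions along `U`
  have hlim : ∀ j, ∃ c : ℂ, Tendsto (f j) U (𝓝 c) := by
    intro j
    obtain ⟨M, hM⟩ := (hf j).2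
    have h2 : closedBall (0 : ℂ) M ∈ U.map (f j) := by
      rw [Ultrafilter.mem_map]
      exact mem_of_superset hDU fun z hz => mem_closedBall_zero_iff.2 (hM z hz)
    obtain ⟨c, -, hc⟩ := (isCompact_closedBall (0 : ℂ) M).ultrafilter_le_nhds' _ h2
    exact ⟨c, hc⟩
  choose b hb using hlim
  have hbP : ∀ i, Tendsto (fun z => MvPolynomial.eval (fun j => f j z) (P i)) U
      (𝓝 (MvPolynomial.eval b (P i))) := by
    intro i
    have h1 : Tendsto (fun z j => f j z) U (𝓝 b) := tendsto_pi_nhds.2 hb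
    exact ((MvPolynomial.continuous_eval (P i)).tendsto b).comp h1
  obtain ⟨B, hB⟩ : ∃ B : ℝ, ∀ z ∈ D, ∀ j, ‖f j z‖ ≤ B := by
    choose B hB using fun j => (hf j).2
    refine ⟨∑ j, |B j|, fun z hz j => (hB j z hz).trans ((le_abs_self _).trans ?_)⟩
    exact Finset.single_le_sum (f := fun j => |B j|) (fun j _ => abs_nonneg _) (Finset.mem_univ j)
  obtain ⟨ε, hε, hεs⟩ := poly_cell h0 hfin (B := B) hδ
  have hJ' : ∀ q : Fin M × Fin M, ∃ S ∈ fib D p T U, q.1 ∈ J → q.2 ∈ J → q.1 ≠ q.2 →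
      ∃ K, Pair S (fun z => MvPolynomial.eval (fun j => f j z) (P q.1))
        (fun z => MvPolynomial.eval (fun j => f j z) (P q.2)) K := by
    intro q
    by_cases h : q.1 ∈ J ∧ q.2 ∈ J ∧ q.1 ≠ q.2
    · obtain ⟨S, hS, K, hK⟩ := hJ q.1 h.1 q.2 h.2.1 h.2.2
      exact ⟨S, hS, fun _ _ _ => ⟨K, hK⟩⟩
    · exact ⟨univ, univ_mem, fun h1 h2 h3 => absurd ⟨h1, h2, h3⟩ h⟩
  choose S hS hSP using hJ'
  have h1 : (⋂ q, S q) ∈ fib D p T U := iInter_mem.2 hS
  have h2 : ∀ i, {z | i ∉ J → ‖MvPolynomial.eval (fun j => f j z) (P i) -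
      MvPolynomial.eval b (P i)‖ < ε} ∈ fib D p T U := by
    intro i
    by_cases hi : i ∈ J
    · exact mem_of_superset univ_mem fun z _ h => absurd hi h
    · have h3 := preimage_mem_fib (D := D) (p := p) (hT i hi) (hbP i)
        (ball_mem_nhds (MvPolynomial.eval b (P i)) hε)
      refine mem_of_superset h3 fun z hz _ => ?_
      have h4 : dist (MvPolynomial.eval (fun j => f j z) (P i)) (MvPolynomial.eval b (P i)) < ε := hz
      rwa [dist_eq_norm] at h4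
  have h3 : (⋂ i, {z | i ∉ J → ‖MvPolynomial.eval (fun j => f j z) (P i) -
      MvPolynomial.eval b (P i)‖ < ε}) ∈ fib D p T U := iInter_mem.2 h2
  obtain ⟨m, u, c, e, he, hu, hc, hsub⟩ := exists_cell (inter_mem h1 h3)
  refine ⟨m, u, c, e, he, hu, hc, ?_⟩
  have hCD : {z | z ∈ D ∩ ball p e ∧ ∀ i, ‖u i z - c i‖ < e} ⊆ D := fun z hz => hz.1.1
  refine hεs (fun j => (hf j).1.mono hCD) (fun z hz j => hB z (hCD hz) j)
    (fun z hz => hfδ z (hCD hz)) J (fun i => MvPolynomial.eval b (P i)) (fun i hi z hz => ?_)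
    fun i hi k hk hik => ?_
  · exact mem_iInter.1 (hsub hz).2 i hi
  · obtain ⟨K, hK⟩ := hSP (i, k) hi hk hik
    exact ⟨K, hK.mono fun z hz => mem_iInter.1 (hsub hz).1 (i, k)⟩

end Pool.Agent.MPca0fc2.OV
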