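import Pool.Agent.Lib.MP_ca0fc2_an.LD.A5

/-! Campaign OV: localization near one boundary point, for data given near this point. -/

set_option autoImplicit false

open Metric Set MeasureTheory Filter Topology
open scoped ContDiff
open Pool.Agent.Lib.MP_ca0fc2_an

namespace Pool.Agent.MPca0fc2.OV

variable {n : ℕ}

/-- **Localization at one point.** If bounded holomorphic functions near `p` have bounded solutions on the
cells of germs of tame functions at `p`, then they have bounded solutions near `p`. -/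
theorem solve_at (hn : 2 ≤ n) {D : Set (EuclideanSpace ℂ (Fin n))} (hD : IsStrictlyPscDomain D)
    {p : EuclideanSpace ℂ (Fin n)} (hp : p ∈ frontier D) {N : ℕ}
    {f : Fin N → EuclideanSpace ℂ (Fin n) → ℂ} {s : ℝ} (hs : 0 < s)
    (hf : ∀ j, IsHinf (D ∩ ball p s) (f j))
    {𝓖 : ℝ → Set (EuclideanSpace ℂ (Fin n) → ℂ)}
    (h𝓖 : ∃ R > 0, ∀ r r' : ℝ, r' < r → r' ≤ R → 𝓖 r ⊆ TameOn D (ball p r'))
    (H : ∃ r > 0, ∃ (m : ℕ) (u : Fin m → EuclideanSpace ℂ (Fin n) → ℂ) (ε : ℝ),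
      0 < ε ∧ (∀ i, u i ∈ LD.Near D p 𝓖) ∧ ∀ c : Fin m → ℂ,
        ∃ C, SolvableOn f (cellOn (D ∩ ball p r) u c ε) C) :
    ∃ r > 0, ∃ C, SolvableOn f (D ∩ ball p r) C := by
  classical
  obtain ⟨U, ρ, h, c₀, hsd, hρ⟩ := Pool.Agent.MPca0fc2.LV.support_of_domain hD
  have hρ3 : ContDiffOn ℝ 3 ρ U := hρ.of_le (by exact WithTop.coe_le_coe.2 le_top)
  obtain ⟨r₀, hr₀, m, u, ε, hε, hu, hcell⟩ := H
  obtain ⟨r, hr, hr0, k, a, e, he, ha, hac⟩ := LD5.germ_cells h𝓖 hu hε (lt_min hr₀ hs)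
  obtain ⟨D', r', hr', hD'o, hD'1, hD'2, hloc⟩ := GW.loc_tame hn hsd hρ3 hp hr
  have hsub : D' ⊆ D ∩ ball p s := fun z hz =>
    ⟨(hD'2 hz).1, ball_subset_ball (hr0.le.trans (min_le_right _ _)) (hD'2 hz).2⟩
  -- solutions on the cells of `a`
  have hsol : ∀ c' : Fin k → ℂ, ∃ C, SolvableOn f (cellOn (D ∩ ball p r) a c' e) C := by
    intro c'
    obtain ⟨c, hc⟩ := hac c'
    obtain ⟨C, hC⟩ := hcell c
    exact ⟨C, CXS.solv_sub hC (hc.trans fun z hz =>
      ⟨⟨hz.1.1, ball_subset_ball (min_le_left _ _) hz.1.2⟩, hz.2⟩) le_rfl⟩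
  choose C hC using hsol
  -- the functions `a` are bounded
  have hab : ∀ i, ∃ M : ℝ, ∀ z ∈ D ∩ ball p r, ‖a i z‖ ≤ M := by
    intro i
    rcases ha i with h1 | h1
    · exact h1.1.2
    · exact h1.1.2
  choose M hM using hab
  -- finitely many cells
  have hcpt : IsCompact (closedBall (0 : Fin k → ℂ) (∑ i, |M i|)) := isCompact_closedBall _ _
  obtain ⟨F, -, hF⟩ := hcpt.elim_nhds_subcover (fun c => ball c (e / 2))
    fun c _ => ball_mem_nhds c (by positivity)
  obtain ⟨C', hC'⟩ := hloc N k f a (∑ c ∈ F, |C c|) (e / 2)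
    (fun j => ⟨(hf j).1.mono hsub, (hf j).2.choose, fun z hz => (hf j).2.choose_spec z (hsub hz)⟩)
    ha (by positivity) (fun b hb => by
      have hbK : (fun i => a i b) ∈ closedBall (0 : Fin k → ℂ) (∑ i, |M i|) := by
        rw [mem_closedBall_zero_iff, pi_norm_le_iff_of_nonneg
          (Finset.sum_nonneg fun _ _ => abs_nonneg _)]
        intro i
        exact (hM i b (hD'2 hb)).trans ((le_abs_self _).trans
          (Finset.single_le_sum (f := fun i => |M i|) (fun _ _ => abs_nonneg _) (Finset.mem_univ i)))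
      obtain ⟨c, hc, hbc⟩ := mem_iUnion₂.1 (hF hbK)
      refine CXS.solv_sub (hC c) (fun z hz => ⟨hD'2 hz.1, fun i => ?_⟩)
        ((le_abs_self _).trans (Finset.single_le_sum (f := fun c => |C c|)
          (fun _ _ => abs_nonneg _) hc))
      have h1 : ‖a i b - c i‖ < e / 2 := by
        have h2 : dist (fun i => a i b) c < e / 2 := hbc
        have h3 := (dist_pi_lt_iff (by positivity)).1 h2 i
        rwa [dist_eq_norm] at h3
      calc ‖a i z - c i‖ = ‖(a i z - a i b) + (a i b - c i)‖ := by congr 1; ring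
        _ ≤ ‖a i z - a i b‖ + ‖a i b - c i‖ := norm_add_le _ _
        _ < e := by linarith [hz.2 i])
  exact ⟨r', hr', C', CXS.solv_sub hC' hD'1 le_rfl⟩

end Pool.Agent.MPca0fc2.OV
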