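import Pool.Agent.Lib.MP_ca0fc2_an.Mg.G112

/-! Campaign OV: omitted values of quotients; one neighbourhood for a compact set of positive capacity. -/

set_option autoImplicit false

open Metric Set MeasureTheory Filter Topology

namespace Pool.Agent.MPca0fc2.OV

/-- if the quotient `x / y` does not take the values `a` in `K` near `p`, then it does not take the values
in a compact subset of positive capacity in a fixed neighbourhood of `p` -/
theorem capPos_near_q {n : ℕ} {D : Set (EuclideanSpace ℂ (Fin n))} (hD : IsOpen D)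
    {x y : EuclideanSpace ℂ (Fin n) → ℂ} (hx : ContinuousOn x D) (hy : ContinuousOn y D)
    (p : EuclideanSpace ℂ (Fin n)) {K : Set ℂ} (hK : CapPos K)
    (h : ∀ a ∈ K, ∃ r > 0, ∀ z ∈ D ∩ ball p r, y z ≠ 0 → x z ≠ a * y z) :
    ∃ K' ⊆ K, CapPos K' ∧ ∃ r > 0, ∀ a ∈ K', ∀ z ∈ D ∩ ball p r, y z ≠ 0 → x z ≠ a * y z := by
  have hD' : IsOpen (D ∩ y ⁻¹' {0}ᶜ) := hy.isOpen_inter_preimage hD isOpen_compl_singleton
  obtain ⟨K', h1, h2, r, hr, h3⟩ := capPos_near hD' (hx.mono inter_subset_left)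
    (hy.mono inter_subset_left) p hK fun a ha => by
      obtain ⟨r, hr, h4⟩ := h a ha
      exact ⟨r, hr, fun z hz h5 => h4 z ⟨hz.1.1, hz.2⟩ hz.1.2 (sub_eq_zero.1 h5)⟩
  exact ⟨K', h1, h2, r, hr, fun a ha z hz hy0 h5 => h3 a ha z ⟨⟨hz.1, hy0⟩, hz.2⟩
    (sub_eq_zero.2 h5)⟩

end Pool.Agent.MPca0fc2.OV
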