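import Pool.Agent.Lib.MP_ca0fc2_an.Mg.G117

/-! Campaign OV, row U2: convex domains, pointwise bounds which depend only on the omitted sets. -/

set_option autoImplicit false

open Metric Set MeasureTheory Filter Topology

namespace Pool.Agent.MPca0fc2.OV

/-- division on convex sets, with bounds at each point: `T` is divisible by `f i` if `|T| |f k| ≤ C |f i|` for
all `k` and the functions `f k` have no common zeros -/
theorem div_hom {E : Type*} [NormedAddCommGroup E] [NormedSpace ℂ E] [FiniteDimensional ℂ E] {N : ℕ}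
    {V : Set E} (hV : IsOpen V) (hc : Convex ℝ V) {T : E → ℂ} {f : Fin N → E → ℂ}
    (hT : DifferentiableOn ℂ T V) (hf : ∀ k, DifferentiableOn ℂ (f k) V)
    (hne : ∀ z ∈ V, ∃ k, f k z ≠ 0) {C : ℝ} (hC : 0 ≤ C) (i : Fin N)
    (h : ∀ z ∈ V, ∀ k, ‖T z‖ * ‖f k z‖ ≤ C * ‖f i z‖) :
    ∃ q : E → ℂ, DifferentiableOn ℂ q V ∧ (∀ z ∈ V, ∀ k, ‖q z‖ * ‖f k z‖ ≤ C) ∧
      ∀ z ∈ V, T z = f i z * q z := by
  have hT0 : ∀ z ∈ V, f i z = 0 → T z = 0 := by
    intro z hz h0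
    obtain ⟨k, hk⟩ := hne z hz
    have h1 := h z hz k
    rw [h0, norm_zero, mul_zero] at h1
    have h2 : 0 < ‖f k z‖ := norm_pos_iff.2 hk
    have h3 : ‖T z‖ ≤ 0 := by
      by_contra hcon
      push Not at hcon
      exact absurd h1 (not_le.2 (mul_pos hcon h2))
    exact norm_le_zero_iff.1 h3
  by_cases hzero : ∀ z ∈ V, f i z = 0
  · refine ⟨fun _ => 0, differentiableOn_const _, fun z _ k => ?_, fun z hz => ?_⟩
    · rw [norm_zero, zero_mul]
      exact hC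
    · rw [hT0 z hz (hzero z hz), mul_zero]
  push Not at hzero
  obtain ⟨z₁, hz₁, h1⟩ := hzero
  have hcl : ∀ z ∈ V, z ∈ closure {w | w ∈ V ∧ f i w ≠ 0} := fun z hz =>
    dense_of_convex hV hc (hf i) hz₁ h1 hz
  have hsub : {w | w ∈ V ∧ f i w ≠ 0} ⊆ V := fun w hw => hw.1
  have hdiv : DifferentiableOn ℂ (fun z => T z / f i z) {w | w ∈ V ∧ f i w ≠ 0} := by
    have h2 : DifferentiableOn ℂ (fun z => (f i z)⁻¹) {w | w ∈ V ∧ f i w ≠ 0} :=
      DifferentiableOn.inv ((hf i).mono hsub) fun w hw => hw.2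
    simp only [div_eq_mul_inv]
    exact (hT.mono hsub).mul h2
  have hbd : ∀ w ∈ V, f i w ≠ 0 → ∀ k, ‖T w / f i w‖ * ‖f k w‖ ≤ C := by
    intro w hw h0 k
    have h2 : 0 < ‖f i w‖ := norm_pos_iff.2 h0
    rw [norm_div, div_mul_eq_mul_div, div_le_iff₀ h2]
    exact h w hw k
  obtain ⟨ψ, hψ, hψe⟩ := riemann_ext hV (h := f i) (hf i) hcl (φ := fun z => T z / f i z) hdiv
    (fun z hz => by
      obtain ⟨k, hk⟩ := hne z hz
      have h2 : 0 < ‖f k z‖ := norm_pos_iff.2 hk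
      have h3 : ∀ᶠ w in 𝓝 z, ‖f k z‖ / 2 < ‖f k w‖ :=
        ((hf k).continuousOn.continuousAt (hV.mem_nhds hz)).norm.eventually
          (lt_mem_nhds (half_lt_self h2))
      obtain ⟨r, hr, h4⟩ := Metric.eventually_nhds_iff_ball.1 h3
      refine ⟨r, hr, C / (‖f k z‖ / 2), fun w hw hwr h0 => ?_⟩
      rw [le_div_iff₀ (half_pos h2)]
      exact le_trans (mul_le_mul_of_nonneg_left (h4 w hwr).le (norm_nonneg _)) (hbd w hw h0 k))
  refine ⟨ψ, hψ, fun z hz k => ?_, fun z hz => ?_⟩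
  · have h2 : ContinuousWithinAt (fun w => ‖ψ w‖ * ‖f k w‖) {w | w ∈ V ∧ f i w ≠ 0} z :=
      (((hψ.continuousOn z hz).norm).mul (((hf k).continuousOn z hz).norm)).mono hsub
    have h3 : (𝓝[{w | w ∈ V ∧ f i w ≠ 0}] z).NeBot := mem_closure_iff_nhdsWithin_neBot.1 (hcl z hz)
    refine le_of_tendsto h2 ?_
    filter_upwards [self_mem_nhdsWithin] with w hw
    rw [hψe w hw.1 hw.2]
    exact hbd w hw.1 hw.2 k
  · by_cases h0 : f i z = 0
    · rw [hT0 z hz h0, h0, zero_mul]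
    · rw [hψe z hz h0, mul_div_cancel₀ _ h0]

/-- **Pointwise bounds on bounded convex domains.** -/
theorem convex_hom_bdd {N : ℕ} (K : Fin N → Fin N → Set ℂ) (hK : ∀ j k, j < k → CapPos (K j k)) :
    ∃ C : ℝ, ∀ (n : ℕ) (V : Set (EuclideanSpace ℂ (Fin n)))
      (f : Fin N → EuclideanSpace ℂ (Fin n) → ℂ), IsOpen V → Convex ℝ V →
      Bornology.IsBounded V → (∀ j, DifferentiableOn ℂ (f j) V) →
      (∀ z ∈ V, ∃ k, f k z ≠ 0) →
      (∀ j k, j < k → ∀ a ∈ K j k, ∀ z ∈ V, f k z ≠ 0 → f j z ≠ a * f k z) →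
      ∃ h : Fin N → EuclideanSpace ℂ (Fin n) → ℂ, (∀ j, DifferentiableOn ℂ (h j) V) ∧
        (∀ j, ∀ z ∈ V, ∀ k, ‖h j z‖ * ‖f k z‖ ≤ C) ∧ ∀ z ∈ V, ∑ j, f j z * h j z = 1 := by
  classical
  rcases N with _ | N
  · exact ⟨0, fun n V f _ _ _ _ hf _ => ⟨fun j => Fin.elim0 j, fun j => Fin.elim0 j,
      fun j => Fin.elim0 j, fun z hz => Fin.elim0 (hf z hz).choose⟩⟩
  -- the constants of the pairs
  have hpair : ∀ q : Fin (N + 1) × Fin (N + 1), ∃ C : ℝ, q.1 < q.2 → ∀ {n : ℕ}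
      (V : Set (EuclideanSpace ℂ (Fin n))) (X Y : EuclideanSpace ℂ (Fin n) → ℂ), IsOpen V →
      Convex ℝ V → Bornology.IsBounded V → DifferentiableOn ℂ X V → DifferentiableOn ℂ Y V →
      (∀ a ∈ K q.1 q.2, ∀ z ∈ V, Y z ≠ 0 → X z ≠ a * Y z) → Cut V X Y C := by
    intro q
    by_cases hq : q.1 < q.2
    · obtain ⟨K', hsub, hK', -, hinf⟩ := capPos_perfect (hK q.1 q.2 hq)
      obtain ⟨C, hC⟩ := cut_convex hK' hinf
      exact ⟨C, fun _ {n} V X Y h1 h2 h3 h4 h5 h6 => hC V X Y h1 h2 h3 h4 h5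
        fun a ha z hz hz0 h7 => h6 a (hsub ha) z hz hz0 (sub_eq_zero.1 h7)⟩
    · exact ⟨0, fun h => absurd h hq⟩
  choose c hc using hpair
  obtain ⟨C, hC0, hC⟩ : ∃ C : ℝ, 0 ≤ C ∧ ∀ q, c q ≤ C :=
    ⟨∑ q, |c q|, Finset.sum_nonneg fun q _ => abs_nonneg _, fun q => (le_abs_self _).trans
      (Finset.single_le_sum (f := fun q => |c q|) (fun _ _ => abs_nonneg _) (Finset.mem_univ q))⟩
  obtain ⟨B, hB, hpart⟩ := partition_unif C hC0 N
  refine ⟨B, fun n V f hV hc' hVb hf hlow hom => ?_⟩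
  obtain ⟨Φ, h1, h2, h3⟩ := hpart V f fun i k hik =>
    (hc (i, k) hik V (f i) (f k) hV hc' hVb (hf i) (hf k) (hom i k hik)).mono_const (hC _)
  have hdiv : ∀ i, ∃ q : EuclideanSpace ℂ (Fin n) → ℂ, DifferentiableOn ℂ q V ∧
      (∀ z ∈ V, ∀ k, ‖q z‖ * ‖f k z‖ ≤ B) ∧ ∀ z ∈ V, Φ i z = f i z * q z := fun i =>
    div_hom hV hc' (h1 i) hf hlow hB i fun z hz k => (h3 z hz i).2 k
  choose q hq1 hq2 hq3 using hdiv
  refine ⟨q, hq1, hq2, fun z hz => ?_⟩
  rw [← h2 z hz]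
  exact Finset.sum_congr rfl fun i _ => (hq3 i z hz).symm

/-- **Pointwise bounds on convex domains.** `K j k` compact sets of positive capacity. There is a constant
`C` which depends only on these sets such that on every convex domain `V` in every `ℂⁿ` all holomorphic
functions `f_1, .., f_N` without common zeros, such that `f_j / f_k` takes no value in `K j k`, have
holomorphic solutions of `∑ f_j h_j = 1` with `|h_j| |f_k| ≤ C`. -/
theorem convex_hom {N : ℕ} (K : Fin N → Fin N → Set ℂ) (hK : ∀ j k, j < k → CapPos (K j k)) :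
    ∃ C : ℝ, ∀ (n : ℕ) (V : Set (EuclideanSpace ℂ (Fin n)))
      (f : Fin N → EuclideanSpace ℂ (Fin n) → ℂ), IsOpen V → Convex ℝ V →
      (∀ j, DifferentiableOn ℂ (f j) V) → (∀ z ∈ V, ∃ k, f k z ≠ 0) →
      (∀ j k, j < k → ∀ a ∈ K j k, ∀ z ∈ V, f k z ≠ 0 → f j z ≠ a * f k z) →
      ∃ h : Fin N → EuclideanSpace ℂ (Fin n) → ℂ, (∀ j, DifferentiableOn ℂ (h j) V) ∧
        (∀ j, ∀ z ∈ V, ∀ k, ‖h j z‖ * ‖f k z‖ ≤ C) ∧ ∀ z ∈ V, ∑ j, f j z * h j z = 1 := by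
  classical
  obtain ⟨C, hC⟩ := convex_hom_bdd K hK
  refine ⟨C, fun n V f hV hc hf hlow hom => ?_⟩
  -- exhaustion by bounded sets
  have hVm : ∀ m : ℕ, ∃ h : Fin N → EuclideanSpace ℂ (Fin n) → ℂ,
      (∀ j, DifferentiableOn ℂ (h j) (V ∩ ball 0 m)) ∧
      (∀ j, ∀ z ∈ V ∩ ball 0 m, ∀ k, ‖h j z‖ * ‖f k z‖ ≤ C) ∧
      ∀ z ∈ V ∩ ball 0 m, ∑ j, f j z * h j z = 1 := fun m =>
    hC n (V ∩ ball 0 m) f (hV.inter isOpen_ball) (hc.inter (convex_ball 0 (m : ℝ)))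
      (isBounded_ball.subset inter_subset_right) (fun j => (hf j).mono inter_subset_left)
      (fun z hz => hlow z hz.1) fun j k hjk a ha z hz => hom j k hjk a ha z hz.1
  choose h h1 h2 h3 using hVm
  obtain ⟨𝒰, h𝒰⟩ : ∃ 𝒰 : Ultrafilter ℕ, (𝒰 : Filter ℕ) ≤ atTop := Ultrafilter.exists_le atTop
  have hev : ∀ m : ℕ, ∀ᶠ i in (𝒰 : Filter ℕ), m ≤ i := fun m => h𝒰 (eventually_ge_atTop m)
  -- limits on the bounded parts
  have hlim : ∀ (j : Fin N) (m : ℕ), ∃ g : EuclideanSpace ℂ (Fin n) → ℂ,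
      DifferentiableOn ℂ g (V ∩ ball 0 m) ∧
      ∀ z ∈ V ∩ ball 0 m, Tendsto (fun i => h i j z) 𝒰 (𝓝 (g z)) := by
    intro j m
    obtain ⟨g, hg1, hg2⟩ := ultra_holo_loc 𝒰 (V := V ∩ ball 0 m)
      (G := fun i z => if m ≤ i then h i j z else 0) (fun i => by
        by_cases hmi : m ≤ i
        · simp only [hmi, if_true]
          exact (h1 i j).mono fun z hz => ⟨hz.1, ball_subset_ball (by exact_mod_cast hmi) hz.2⟩
        · simp only [hmi, if_false]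
          exact differentiableOn_const _) (fun z hz => by
        obtain ⟨k, hk⟩ := hlow z hz.1
        have h4 : 0 < ‖f k z‖ := norm_pos_iff.2 hk
        have h5 : ∀ᶠ w in 𝓝 z, ‖f k z‖ / 2 < ‖f k w‖ :=
          ((hf k).continuousOn.continuousAt (hV.mem_nhds hz.1)).norm.eventually
            (lt_mem_nhds (half_lt_self h4))
        obtain ⟨r, hr, h6⟩ := Metric.eventually_nhds_iff_ball.1
          (h5.and ((hV.inter isOpen_ball).mem_nhds hz))
        refine ⟨r, hr, |C| / (‖f k z‖ / 2), fun w hw => (h6 w hw).2, ?_⟩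
        filter_upwards [hev m] with i hi w hw
        rw [if_pos hi, le_div_iff₀ (half_pos h4)]
        have h7 := (h6 w hw).2
        exact (mul_le_mul_of_nonneg_left (h6 w hw).1.le (norm_nonneg _)).trans
          ((h2 i j w ⟨h7.1, ball_subset_ball (by exact_mod_cast hi) h7.2⟩ k).trans (le_abs_self C)))
    refine ⟨g, hg1, fun z hz => (hg2 z hz).congr' ?_⟩
    filter_upwards [hev m] with i hi
    rw [if_pos hi]
  choose g hg1 hg2 using hlim
  have hmem : ∀ z ∈ V, ∃ m : ℕ, z ∈ V ∩ ball 0 (m : ℝ) := by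
    intro z hz
    obtain ⟨m, hm⟩ := exists_nat_gt ‖z‖
    exact ⟨m, hz, by rwa [mem_ball_zero_iff]⟩
  obtain ⟨G, hG⟩ : ∃ G : Fin N → EuclideanSpace ℂ (Fin n) → ℂ,
      ∀ j, ∀ z ∈ V, Tendsto (fun i => h i j z) 𝒰 (𝓝 (G j z)) := by
    choose! m hm using hmem
    exact ⟨fun j z => g j (m z) z, fun j z hz => hg2 j (m z) z (hm z hz)⟩
  have hGg : ∀ (j : Fin N) (m : ℕ), ∀ z ∈ V ∩ ball 0 (m : ℝ), G j z = g j m z := fun j m z hz =>
    tendsto_nhds_unique (hG j z hz.1) (hg2 j m z hz)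
  refine ⟨G, fun j z hz => ?_, fun j z hz k => ?_, fun z hz => ?_⟩
  · obtain ⟨m, hm⟩ := hmem z hz
    have h4 : DifferentiableAt ℂ (g j m) z :=
      (hg1 j m z hm).differentiableAt ((hV.inter isOpen_ball).mem_nhds hm)
    refine (h4.congr_of_eventuallyEq ?_).differentiableWithinAt
    filter_upwards [(hV.inter isOpen_ball).mem_nhds hm] with w hw
    exact hGg j m w hw
  · obtain ⟨m, hm⟩ := hmem z hz
    refine le_of_tendsto ((hG j z hz).norm.mul_const ‖f k z‖) ?_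
    filter_upwards [hev m] with i hi
    exact h2 i j z ⟨hm.1, ball_subset_ball (by exact_mod_cast hi) hm.2⟩ k
  · obtain ⟨m, hm⟩ := hmem z hz
    refine tendsto_nhds_unique (tendsto_finsetSum _ fun j _ => (hG j z hz).const_mul (f j z))
      (tendsto_const_nhds.congr' ?_)
    filter_upwards [hev m] with i hi
    exact (h3 i z ⟨hm.1, ball_subset_ball (by exact_mod_cast hi) hm.2⟩).symm

end Pool.Agent.MPca0fc2.OV
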