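import Pool.Agent.Lib.MP_ca0fc2_an.Mg.G119
import Pool.Agent.Lib.MP_ca0fc2_an.Mg.G118
import Pool.Agent.Lib.MP_ca0fc2_an.Mg.G112

/-! Campaign OV, row W4: compact sets of positive area are not removable for bounded holomorphic
functions (Cauchy transforms), and have positive capacity. -/

set_option autoImplicit false

open Metric Set MeasureTheory Filter Topology
open scoped ENNReal

namespace Pool.Agent.MPca0fc2.OV

theorem capPos_of_volume {K : Set ℂ} (hK : IsCompact K) (h : volume K ≠ 0) : CapPos K := by
  obtain ⟨μ, B, h1, h2, h3⟩ := potential_of_volume hK h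
  exact ⟨hK, μ, B, h1, h2, h3⟩

end Pool.Agent.MPca0fc2.OV
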