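import Pool.Agent.Lib.MP_ca0fc2_an.Mg.G120

/-! Campaign OV, row W5: almost every linear combination has zeros near `p`. -/

set_option autoImplicit false

open Metric Set MeasureTheory Filter Topology
open scoped ENNReal

namespace Pool.Agent.MPca0fc2.OV

/-- If in every basis two of the linear combinations `g_i = ∑ b_ij f_j` are such that near `p` every compact
set of positive area contains a number `t` such that `g_i - t g_k` has a zero, then almost every linear
combination has zeros in every neighbourhood of `p`. -/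
theorem ae_near {N : ℕ} {E : Type*} [NormedAddCommGroup E] [NormedSpace ℂ E]
    [FiniteDimensional ℂ E] {D : Set E} (hD : IsOpen D) (p : E) {f : Fin N → E → ℂ}
    (hf : ∀ j, ContinuousOn (f j) D)
    (h : ∀ b : Fin N → (Fin N → ℂ), LinearIndependent ℂ b → ∃ i k, i ≠ k ∧
      ∀ K : Set ℂ, IsCompact K → volume K ≠ 0 → ∀ r > 0,
        ∃ t ∈ K, ∃ z ∈ D ∩ ball p r, (∑ j, b i j * f j z) - t * ∑ j, b k j * f j z = 0) :
    ∀ᵐ a : Fin N → ℂ, ∀ r > 0, ∃ z ∈ D ∩ ball p r, ∑ j, a j * f j z = 0 := by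
  have h1 : ∀ m : ℕ, ∀ᵐ a : Fin N → ℂ, ∃ z ∈ D ∩ ball p (1 / ((m : ℝ) + 1)),
      ∑ j, a j * f j z = 0 := by
    intro m
    refine ae_zero (hD.inter isOpen_ball) (fun j => (hf j).mono inter_subset_left) fun b hb => ?_
    obtain ⟨i, k, hik, hK⟩ := h b hb
    exact ⟨i, k, hik, fun K hKc hK0 => hK K hKc hK0 _ (by positivity)⟩
  refine (ae_all_iff.2 h1).mono fun a ha r hr => ?_
  obtain ⟨m, hm⟩ := exists_nat_one_div_lt hr
  obtain ⟨z, hz, h0⟩ := ha m
  exact ⟨z, ⟨hz.1, ball_subset_ball hm.le hz.2⟩, h0⟩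

end Pool.Agent.MPca0fc2.OV
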