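import Pool.Agent.Lib.MP_ca0fc2_an.Mg.G113
import Pool.Agent.Lib.MP_ca0fc2_an.Mg.G118

/-! Campaign OV, row Y1: quotients which omit a set which is not removable for bounded holomorphic
functions, common zeros allowed. -/

set_option autoImplicit false

open Metric Set MeasureTheory Filter Topology

namespace Pool.Agent.MPca0fc2.OV

/-- identity theorem on balls -/
theorem zero_ball {E : Type*} [NormedAddCommGroup E] [NormedSpace ℂ E] {z : E} {r : ℝ} {Y : E → ℂ}
    (hY : DifferentiableOn ℂ Y (ball z r)) {z' : E} (hz' : z' ∈ ball z r)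
    (h : ∀ᶠ w in 𝓝 z', Y w = 0) {w : E} (hw : w ∈ ball z r) : Y w = 0 := by
  obtain ⟨u, hu⟩ : ∃ u : E, u = w - z' := ⟨_, rfl⟩
  obtain ⟨T, hT⟩ : ∃ T : Set ℂ, T = {t : ℂ | z' + t • u ∈ ball z r} := ⟨_, rfl⟩
  have hcont : Continuous fun t : ℂ => z' + t • u := by fun_prop
  have hTo : IsOpen T := by
    rw [hT]
    exact isOpen_ball.preimage hcont
  have hTc : Convex ℝ T := by
    rw [hT]
    intro s hs t ht a b ha hb hab
    have hs' : ‖z' + s • u - z‖ < r := by
      rw [← dist_eq_norm]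
      exact hs
    have ht' : ‖z' + t • u - z‖ < r := by
      rw [← dist_eq_norm]
      exact ht
    show z' + (a • s + b • t) • u ∈ ball z r
    rw [mem_ball, dist_eq_norm]
    have h1 : z' + (a • s + b • t) • u - z =
        (a : ℂ) • (z' + s • u - z) + (b : ℂ) • (z' + t • u - z) := by
      have h2 : (a : ℂ) + b = 1 := by
        rw [← Complex.ofReal_add, hab, Complex.ofReal_one]
      have h3 : a = 1 - b := by linarith
      rw [h3]
      simp only [Complex.real_smul, Complex.ofReal_sub, Complex.ofReal_one]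
      module
    rw [h1]
    refine (norm_add_le _ _).trans_lt ?_
    rw [norm_smul, norm_smul, Complex.norm_real, Complex.norm_real, Real.norm_of_nonneg ha,
      Real.norm_of_nonneg hb]
    rcases ha.eq_or_lt with h0 | h0
    · have h4 : b = 1 := by linarith
      rw [← h0, h4]
      linarith
    · nlinarith [norm_nonneg (z' + s • u - z)]
  have h0T : (0 : ℂ) ∈ T := by
    rw [hT]
    show z' + (0 : ℂ) • u ∈ ball z r
    rw [zero_smul, add_zero]
    exact hz'
  have h1T : (1 : ℂ) ∈ T := by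
    rw [hT]
    show z' + (1 : ℂ) • u ∈ ball z r
    rw [one_smul, hu, add_sub_cancel]
    exact hw
  have hd : DifferentiableOn ℂ (fun t : ℂ => Y (z' + t • u)) T := fun t ht => by
    refine DifferentiableAt.differentiableWithinAt ?_
    rw [hT] at ht
    have h1 : DifferentiableAt ℂ Y (z' + t • u) := hY.differentiableAt (isOpen_ball.mem_nhds ht)
    have h2 : DifferentiableAt ℂ (fun t : ℂ => z' + t • u) t := by fun_prop
    exact DifferentiableAt.comp (g := Y) t h1 h2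
  have hev : (fun t : ℂ => Y (z' + t • u)) =ᶠ[𝓝 0] 0 := by
    have h2 : Tendsto (fun t : ℂ => z' + t • u) (𝓝 0) (𝓝 z') := by
      have h3 := hcont.tendsto 0
      rwa [zero_smul, add_zero] at h3
    exact h2.eventually h
  have h2 := (hd.analyticOnNhd hTo).eqOn_zero_of_preconnected_of_eventuallyEq_zero
    hTc.isPreconnected h0T hev h1T
  have h3 : z' + (1 : ℂ) • u = w := by
    rw [one_smul, hu, add_sub_cancel]
  rw [← h3]
  exact h2

/-- the points near which `Y` is not identically zero form an open set -/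
theorem isOpen_supp {E : Type*} [NormedAddCommGroup E] [NormedSpace ℂ E] {W : Set E}
    (hW : IsOpen W) {Y : E → ℂ} (hY : DifferentiableOn ℂ Y W) :
    IsOpen {z | z ∈ W ∧ z ∈ closure {w ∈ W | Y w ≠ 0}} := by
  rw [Metric.isOpen_iff]
  rintro z ⟨hz, hzc⟩
  obtain ⟨r, hr, hrW⟩ := Metric.isOpen_iff.1 hW z hz
  refine ⟨r, hr, fun z' hz' => ⟨hrW hz', ?_⟩⟩
  by_contra hcon
  rw [mem_closure_iff_frequently, not_frequently] at hcon
  have h1 : ∀ᶠ w in 𝓝 z', Y w = 0 := by
    filter_upwards [hcon, isOpen_ball.mem_nhds hz'] with w hw hw'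
    by_contra h0
    exact hw ⟨hrW hw', h0⟩
  obtain ⟨w, hw, hwr⟩ := ((mem_closure_iff_frequently.1 hzc).and_eventually
    (ball_mem_nhds z hr)).exists
  exact hw.2 (zero_ball (hY.mono hrW) hz' h1 hwr)

/-- the case of a function `Y` which is nowhere identically zero -/
private theorem cut_removable_aux {E : Type*} [NormedAddCommGroup E] [NormedSpace ℂ E] [FiniteDimensional ℂ E]
    {W : Set E} (hW : IsOpen W) {X Y : E → ℂ} (hX : DifferentiableOn ℂ X W)
    (hY : DifferentiableOn ℂ Y W) (hd : ∀ z ∈ W, z ∈ closure {w ∈ W | Y w ≠ 0}) {K : Set ℂ}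
    (hK : NonRem K) (h : ∀ a ∈ K, ∀ z ∈ W, Y z ≠ 0 → X z - a * Y z ≠ 0) : ∃ C, Cut W X Y C := by
  have hKc : IsCompact K := hK.1
  have hKo : IsOpen Kᶜ := hKc.isClosed.isOpen_compl
  obtain ⟨C, u, v, hu, hv, h1, h2⟩ := pair_removable (E := ℂ) (W := Kᶜ) (x := fun t => t)
    (y := fun _ => 1) differentiableOn_id (differentiableOn_const _) hK
    (fun a ha t ht h0 => ht (by rw [mul_one, sub_eq_zero] at h0; rw [h0]; exact ha))
  have hmap : ∀ z ∈ W, Y z ≠ 0 → X z / Y z ∈ Kᶜ := by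
    intro z hz hYz hcon
    refine h _ hcon z hz hYz ?_
    rw [div_mul_cancel₀ _ hYz, sub_self]
  have hnn : ∀ t ∈ Kᶜ, ‖t * u t‖ * (‖t‖ + 1) ≤ C * ‖t‖ ∧ ‖1 - t * u t‖ * (‖t‖ + 1) ≤ C := by
    intro t ht
    have h3 := (h2 t ht).1
    have h4 := (h2 t ht).2
    rw [norm_one] at h3 h4
    constructor
    · rw [norm_mul]
      calc ‖t‖ * ‖u t‖ * (‖t‖ + 1) = (‖u t‖ * (‖t‖ + 1)) * ‖t‖ := by ring
        _ ≤ C * ‖t‖ := mul_le_mul_of_nonneg_right h3 (norm_nonneg _)
    · have h5 : 1 - t * u t = v t := by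
        have h6 := h1 t ht
        rw [one_mul] at h6
        linear_combination -h6
      rw [h5]
      exact h4
  have hbd : ∀ z ∈ W, Y z ≠ 0 → ‖X z / Y z * u (X z / Y z)‖ * (‖X z‖ + ‖Y z‖) ≤ C * ‖X z‖ ∧
      ‖1 - X z / Y z * u (X z / Y z)‖ * (‖X z‖ + ‖Y z‖) ≤ C * ‖Y z‖ := by
    intro z hz hYz
    obtain ⟨h3, h4⟩ := hnn _ (hmap z hz hYz)
    have hY0 : 0 < ‖Y z‖ := norm_pos_iff.2 hYz
    have h5 : (‖X z / Y z‖ + 1) * ‖Y z‖ = ‖X z‖ + ‖Y z‖ := by
      rw [norm_div]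
      field_simp
    rw [← h5]
    constructor
    · calc ‖X z / Y z * u (X z / Y z)‖ * ((‖X z / Y z‖ + 1) * ‖Y z‖)
          = (‖X z / Y z * u (X z / Y z)‖ * (‖X z / Y z‖ + 1)) * ‖Y z‖ := by ring
        _ ≤ (C * ‖X z / Y z‖) * ‖Y z‖ := mul_le_mul_of_nonneg_right h3 hY0.le
        _ = C * ‖X z‖ := by
            rw [norm_div]
            field_simp
    · calc ‖1 - X z / Y z * u (X z / Y z)‖ * ((‖X z / Y z‖ + 1) * ‖Y z‖)
          = (‖1 - X z / Y z * u (X z / Y z)‖ * (‖X z / Y z‖ + 1)) * ‖Y z‖ := by ring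
        _ ≤ C * ‖Y z‖ := mul_le_mul_of_nonneg_right h4 hY0.le
  have hC0 : ∀ z ∈ W, Y z ≠ 0 → ‖X z / Y z * u (X z / Y z)‖ ≤ |C| := by
    intro z hz hYz
    have h3 := (hbd z hz hYz).1
    have hY0 : 0 < ‖Y z‖ := norm_pos_iff.2 hYz
    have hs : 0 < ‖X z‖ + ‖Y z‖ := by linarith [norm_nonneg (X z)]
    refine le_of_mul_le_mul_right (h3.trans ?_) hs
    have h4 : C * ‖X z‖ ≤ |C| * ‖X z‖ := mul_le_mul_of_nonneg_right (le_abs_self C) (norm_nonneg _)
    have h5 : |C| * ‖X z‖ ≤ |C| * (‖X z‖ + ‖Y z‖) :=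
      mul_le_mul_of_nonneg_left (by linarith) (abs_nonneg C)
    linarith
  obtain ⟨ψ, hψ, hψe⟩ := riemann_ext hW hY hd (φ := fun z => X z / Y z * u (X z / Y z))
    (by
      intro z hz
      refine DifferentiableAt.differentiableWithinAt ?_
      have h3 : DifferentiableAt ℂ (fun z => X z / Y z) z := by
        simp only [div_eq_mul_inv]
        exact (hX.differentiableAt (hW.mem_nhds hz.1)).mul
          ((hY.differentiableAt (hW.mem_nhds hz.1)).inv hz.2)
      have h4 : DifferentiableAt ℂ u (X z / Y z) :=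
        hu.differentiableAt (hKo.mem_nhds (hmap z hz.1 hz.2))
      exact h3.mul (DifferentiableAt.comp (g := u) z h4 h3))
    (fun z _ => ⟨1, one_pos, |C|, fun w hw _ h0 => hC0 w hw h0⟩)
  -- the bounds extend by continuity
  have hlim : ∀ z ∈ W, ∀ p : E → ℝ, ContinuousOn p W → (∀ w ∈ W, Y w ≠ 0 → p w ≤ 0) → p z ≤ 0 := by
    intro z hz p hp hpw
    have h3 : (𝓝[{w ∈ W | Y w ≠ 0}] z).NeBot := mem_closure_iff_nhdsWithin_neBot.1 (hd z hz)
    have h4 : Tendsto p (𝓝[{w ∈ W | Y w ≠ 0}] z) (𝓝 (p z)) :=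
      ((hp z hz).mono_left (nhdsWithin_mono z fun w hw => hw.1))
    refine le_of_tendsto h4 ?_
    filter_upwards [self_mem_nhdsWithin] with w hw
    exact hpw w hw.1 hw.2
  have hXc := hX.continuousOn
  have hYc := hY.continuousOn
  have hψc := hψ.continuousOn
  refine ⟨|C|, ψ, hψ, fun z hz => ⟨?_, ?_, ?_⟩⟩
  · have h3 := hlim z hz (fun z => ‖ψ z‖ - |C|) (hψc.norm.sub continuousOn_const)
      fun w hw h0 => by
        rw [hψe w hw h0]
        linarith [hC0 w hw h0]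
    linarith
  · have h3 := hlim z hz (fun z => ‖ψ z‖ * (‖X z‖ + ‖Y z‖) - |C| * ‖X z‖)
      ((hψc.norm.mul (hXc.norm.add hYc.norm)).sub (continuousOn_const.mul hXc.norm))
      fun w hw h0 => by
        rw [hψe w hw h0]
        have h4 := (hbd w hw h0).1
        have h5 : C * ‖X w‖ ≤ |C| * ‖X w‖ :=
          mul_le_mul_of_nonneg_right (le_abs_self C) (norm_nonneg _)
        linarith
    linarith
  · have h3 := hlim z hz (fun z => ‖1 - ψ z‖ * (‖X z‖ + ‖Y z‖) - |C| * ‖Y z‖)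
      (((continuousOn_const.sub hψc).norm.mul (hXc.norm.add hYc.norm)).sub
        (continuousOn_const.mul hYc.norm))
      fun w hw h0 => by
        rw [hψe w hw h0]
        have h4 := (hbd w hw h0).2
        have h5 : C * ‖Y w‖ ≤ |C| * ‖Y w‖ :=
          mul_le_mul_of_nonneg_right (le_abs_self C) (norm_nonneg _)
        linarith
    linarith

/-- If `X / Y` omits (where `Y` is not zero) a compact set which is not removable for bounded holomorphic
functions, then the pair `X, Y` can be split. -/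
theorem cut_removable {E : Type*} [NormedAddCommGroup E] [NormedSpace ℂ E] [FiniteDimensional ℂ E]
    {W : Set E} (hW : IsOpen W) {X Y : E → ℂ} (hX : DifferentiableOn ℂ X W)
    (hY : DifferentiableOn ℂ Y W) {K : Set ℂ} (hK : NonRem K)
    (h : ∀ a ∈ K, ∀ z ∈ W, Y z ≠ 0 → X z ≠ a * Y z) : ∃ C, Cut W X Y C := by
  classical
  obtain ⟨W₁, hW₁⟩ : ∃ W₁ : Set E, W₁ = {z | z ∈ W ∧ z ∈ closure {w ∈ W | Y w ≠ 0}} := ⟨_, rfl⟩
  have ho : IsOpen W₁ := by
    rw [hW₁]
    exact isOpen_supp hW hY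
  have hsub : W₁ ⊆ W := by
    rw [hW₁]
    exact fun z hz => hz.1
  obtain ⟨C, φ, hφ, hb⟩ := cut_removable_aux ho (hX.mono hsub) (hY.mono hsub) (fun z hz => by
    have h1 : z ∈ closure {w ∈ W | Y w ≠ 0} := by
      rw [hW₁] at hz
      exact hz.2
    have h2 : {w ∈ W | Y w ≠ 0} ⊆ {w ∈ W₁ | Y w ≠ 0} := by
      intro w hw
      refine ⟨?_, hw.2⟩
      rw [hW₁]
      exact ⟨hw.1, subset_closure hw⟩
    exact closure_mono h2 h1) hK fun a ha z hz h0 h1 =>
      h a ha z (hsub hz) h0 (sub_eq_zero.1 h1)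
  have hZ : ∀ z ∈ W, z ∉ W₁ → ∀ᶠ w in 𝓝 z, w ∉ W₁ := by
    intro z hz hz1
    rw [hW₁] at hz1 ⊢
    have h1 : z ∈ (closure {w ∈ W | Y w ≠ 0})ᶜ := fun h => hz1 ⟨hz, h⟩
    filter_upwards [isClosed_closure.isOpen_compl.mem_nhds h1] with w hw hw'
    exact hw hw'.2
  obtain ⟨Φ, hΦ⟩ : ∃ Φ : E → ℂ, ∀ z, Φ z = if z ∈ W₁ then φ z else 1 := ⟨_, fun z => rfl⟩
  refine ⟨max C 1, Φ, fun z hz => ?_, fun z hz => ?_⟩
  · refine DifferentiableAt.differentiableWithinAt ?_
    by_cases h1 : z ∈ W₁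
    · refine (hφ.differentiableAt (ho.mem_nhds h1)).congr_of_eventuallyEq ?_
      filter_upwards [ho.mem_nhds h1] with w hw
      rw [hΦ, if_pos hw]
    · refine (differentiableAt_const (1 : ℂ)).congr_of_eventuallyEq ?_
      filter_upwards [hZ z hz h1] with w hw
      rw [hΦ, if_neg hw]
  · by_cases h1 : z ∈ W₁
    · rw [hΦ, if_pos h1]
      obtain ⟨h2, h3, h4⟩ := hb z h1
      exact ⟨h2.trans (le_max_left _ _),
        h3.trans (mul_le_mul_of_nonneg_right (le_max_left _ _) (norm_nonneg _)),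
        h4.trans (mul_le_mul_of_nonneg_right (le_max_left _ _) (norm_nonneg _))⟩
    · rw [hΦ, if_neg h1]
      have h2 : Y z = 0 := by
        by_contra h0
        refine h1 ?_
        rw [hW₁]
        exact ⟨hz, subset_closure ⟨hz, h0⟩⟩
      rw [h2, norm_one, norm_zero, sub_self, norm_zero]
      refine ⟨le_max_right _ _, ?_, by simp⟩
      rw [one_mul, add_zero]
      exact le_mul_of_one_le_left (norm_nonneg _) (le_max_right _ _)

end Pool.Agent.MPca0fc2.OV
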