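import Pool.Agent.Lib.MP_ca0fc2_an.SPDefs
import Pool.Agent.Lib.MP_ca0fc2_an.SGHDefs

/-! Campaign OV: small cells of germs of holomorphic functions are open. -/

set_option autoImplicit false

open Metric Set MeasureTheory Filter Topology
open Pool.Agent.Lib.MP_ca0fc2_an

namespace Pool.Agent.MPca0fc2.OV

theorem cell_open_same {n m : ℕ} {D : Set (EuclideanSpace ℂ (Fin n))} (hD : IsOpen D)
    {p : EuclideanSpace ℂ (Fin n)} {u : Fin m → EuclideanSpace ℂ (Fin n) → ℂ} (c : Fin m → ℂ)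
    (hu : ∀ i, ∃ r > 0, IsHinf (D ∩ ball p r) (u i)) {ε : ℝ} (hε : 0 < ε) :
    ∃ e > 0, e ≤ ε ∧ IsOpen {z | z ∈ D ∩ ball p e ∧ ∀ i, ‖u i z - c i‖ < e} := by
  choose r hr hur using hu
  obtain ⟨e, he, heε, her⟩ : ∃ e > 0, e ≤ ε ∧ ∀ i, e ≤ r i := by
    rcases isEmpty_or_nonempty (Fin m) with hm | hm
    · exact ⟨ε, hε, le_rfl, fun i => (hm.false i).elim⟩
    · exact ⟨min ε (Finset.univ.inf' Finset.univ_nonempty r),
        lt_min hε ((Finset.lt_inf'_iff _).2 fun i _ => hr i), min_le_left _ _,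
        fun i => (min_le_right _ _).trans (Finset.inf'_le _ (Finset.mem_univ i))⟩
  refine ⟨e, he, heε, ?_⟩
  have h1 : IsOpen (D ∩ ball p e) := hD.inter isOpen_ball
  have h2 : {z | z ∈ D ∩ ball p e ∧ ∀ i, ‖u i z - c i‖ < e} =
      (D ∩ ball p e) ∩ ⋂ i, (D ∩ ball p e) ∩ (fun z => ‖u i z - c i‖) ⁻¹' Iio e := by
    ext z
    simp only [Set.mem_ofPred_eq, Set.mem_inter_iff, Set.mem_iInter, Set.mem_preimage, Set.mem_Iio]
    exact ⟨fun h => ⟨h.1, fun i => ⟨h.1, h.2 i⟩⟩, fun h => ⟨h.1, fun i => (h.2 i).2⟩⟩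
  rw [h2]
  refine h1.inter (isOpen_iInter_of_finite fun i => ?_)
  have h3 : ContinuousOn (fun z => ‖u i z - c i‖) (D ∩ ball p e) :=
    (((hur i).1.continuousOn.mono fun z hz => ⟨hz.1, ball_subset_ball (her i) hz.2⟩).sub
      continuousOn_const).norm
  exact h3.isOpen_inter_preimage h1 isOpen_Iio

end Pool.Agent.MPca0fc2.OV
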